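import Pool.Agent.Torelli.B1.Final
import Pool.Agent.Torelli.Fin.Cnt

/-!
# Torelli project, part B1: the statement `B1Stmt` from the lifting statement
-/

set_option autoImplicit false

namespace Pool.Agent.Torelli.B1

open Pool.Agent.Torelli

theorem StF_le_of_lift (hL : LiftStmt) (s h : ℕ) : StF s h ≤ M s h := by
  intro φ hφ
  have h1 : cprod s h (fun n => φ (FreeGroup.of n)) = zeta s h := by
    have h2 := map_cprod φ.toMonoidHom s h (fun n => FreeGroup.of n)
    rw [cprod_of] at h2
    exact h2.symm.trans hφ.1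
  obtain ⟨θ, hθ, h2⟩ := hL s h _ h1
  have h3 : φ = θ := by
    apply aut_ext_of
    intro n
    by_cases hn : n < 2 * s ∨ 2 * (s + h) ≤ n
    · rw [hφ.2 n hn, M_fix_of hθ hn]
    · exact (h2 n (by omega) (by omega)).symm
  rw [h3]
  exact hθ

/-- **B1** for all `h ≥ 2`, from the lifting statement -/
theorem B1_of_lift (hL : LiftStmt) {s h : ℕ} (hh : 2 ≤ h) {x : F} (hx : x ∈ FS s h)
    (hc : cl x = 1) : x ∈ Delta s h := B1_main hh (StF_le_of_lift hL s h) hx hc

theorem b1Stmt_of_lift (hL : LiftStmt) : B1Stmt := fun s h hh _ hx hc =>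
  B1_main (by omega) (StF_le_of_lift hL s h) hx hc

end Pool.Agent.Torelli.B1
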