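import Pool.Agent.Torelli.B1.ZP

/-!
# Torelli project, part B1: the group `Delta s h`, the twist `tau`, commutators with the elements of the first
handle (`N2`) and of the second handle (`N3`)
-/

set_option autoImplicit false

namespace Pool.Agent.Torelli.B1

open Pool.Agent.Torelli

/-! ### Basic properties of `Delta` -/

theorem Delta_gen {s h : ℕ} {θ : MulAut F} (hθ : θ ∈ M s h) : θ (H s) ∈ Delta s h :=
  Subgroup.subset_closure ⟨θ, hθ, rfl⟩

theorem Delta_map {s h : ℕ} {θ : MulAut F} (hθ : θ ∈ M s h) {x : F} (hx : x ∈ Delta s h) :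
    θ x ∈ Delta s h := by
  have : Delta s h ≤ (Delta s h).comap θ.toMonoidHom := by
    conv_lhs => unfold Delta
    rw [Subgroup.closure_le]
    rintro x ⟨φ, hφ, rfl⟩
    exact Delta_gen (mul_mem hθ hφ)
  exact this hx

theorem Delta_map_iff {s h : ℕ} {θ : MulAut F} (hθ : θ ∈ M s h) {x : F} :
    θ x ∈ Delta s h ↔ x ∈ Delta s h := by
  constructor
  · intro hx
    have := Delta_map (inv_mem hθ) hx
    rwa [MulAut.inv_apply_self] at this
  · exact Delta_map hθ

theorem Delta_le {s h : ℕ} (hh : 1 ≤ h) : Delta s h ≤ FS s h := by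
  unfold Delta
  rw [Subgroup.closure_le]
  rintro x ⟨θ, hθ, rfl⟩
  exact M_FS hθ (H_mem_FS le_rfl (by omega))

theorem cl_map_eq_one (θ : MulAut F) {x : F} (hx : cl x = 1) : cl (θ x) = 1 := by
  rw [cl_eq_one_iff] at hx ⊢
  have h1 : (commutator F).comap θ.toMonoidHom = commutator F :=
    (inferInstance : (commutator F).Characteristic).fixed θ
  rw [← h1] at hx
  exact hx

theorem Delta_cl {s h : ℕ} {x : F} (hx : x ∈ Delta s h) : cl x = 1 := by
  have : Delta s h ≤ cl.ker := by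
    unfold Delta
    rw [Subgroup.closure_le]
    rintro x ⟨θ, hθ, rfl⟩
    exact cl_map_eq_one θ (cl_H s)
  exact this hx

theorem S_mem' {s h i : ℕ} (h1 : s ≤ i) (h2 : i + 1 < s + h) : S i ∈ M s h :=
  M_mono h1 (by omega) (S_mem i 2 le_rfl)

theorem H_mem_Delta {s h : ℕ} : ∀ i : ℕ, i < h → H (s + i) ∈ Delta s h
  | 0, hh => Delta_gen (one_mem _)
  | i + 1, hh => by
    have h1 := H_mem_Delta (s := s) (h := h) i (by omega)
    have h2 := Delta_map (S_mem' (s := s) (h := h) (i := s + i) (by omega) (by omega)) h1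
    rw [S_H] at h2
    exact h2

theorem zeta_mem_Delta {s h : ℕ} (i n : ℕ) (hn : i + n ≤ h) : zeta (s + i) n ∈ Delta s h := by
  induction n with
  | zero => rw [zeta_zero]; exact one_mem _
  | succ n ih =>
    rw [zeta_succ]
    have h1 := H_mem_Delta (s := s) (h := h) (i + n) (by omega)
    rw [← add_assoc] at h1
    exact mul_mem (ih (by omega)) h1

/-! ### The twist `tau` -/

/-- `e = d_s ζ''` -/
def eT (s h : ℕ) : F := d s * zeta (s + 1) (h - 1)

/-- letters under `tau^±` : `b_s ↦ g b_s`, letters of the later handles are conjugated by `g` -/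
def tauF (s h : ℕ) (g : F) (n : ℕ) : F :=
  if n < 2 * s + 1 ∨ 2 * (s + h) ≤ n then FreeGroup.of n
  else if n = 2 * s + 1 then g * b s
  else g * FreeGroup.of n * g⁻¹

theorem tauF_a (s h : ℕ) (g : F) : FreeGroup.lift (tauF s h g) (a s) = a s := by
  rw [lift_a, tauF, if_pos (by omega), a]

theorem tauF_b (s h : ℕ) (hh : 1 ≤ h) (g : F) :
    FreeGroup.lift (tauF s h g) (b s) = g * b s := by
  rw [lift_b, tauF, if_neg (by omega), if_pos rfl]

theorem tauF_FS (s h : ℕ) (g : F) {x : F} (hx : x ∈ FS (s + 1) (h - 1)) :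
    FreeGroup.lift (tauF s h g) x = g * x * g⁻¹ := by
  have : FS (s + 1) (h - 1) ≤
      MonoidHom.eqLocus (FreeGroup.lift (tauF s h g)) (MulAut.conj g).toMonoidHom := by
    conv_lhs => unfold FS
    rw [Subgroup.closure_le]
    rintro x ⟨n, h1, h2, rfl⟩
    show FreeGroup.lift (tauF s h g) (FreeGroup.of n) = g * FreeGroup.of n * g⁻¹
    rw [FreeGroup.lift_apply_of, tauF, if_neg (by omega), if_neg (by omega)]
  exact this hx

theorem tauF_d (s h : ℕ) (hh : 1 ≤ h) (g : F) :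
    FreeGroup.lift (tauF s h g) (d s) = g * d s * g⁻¹ := by
  simp only [d, map_mul, map_inv, tauF_a, tauF_b s h hh]
  group

theorem tauF_e (s h : ℕ) (hh : 1 ≤ h) (g : F) :
    FreeGroup.lift (tauF s h g) (eT s h) = g * eT s h * g⁻¹ := by
  rw [eT, map_mul, tauF_d s h hh, tauF_FS s h g (zeta_mem_FS le_rfl le_rfl)]
  group

theorem tauF_comp (s h : ℕ) (hh : 1 ≤ h) (g g' : F) (hg : g' * g = 1)
    (hgg : FreeGroup.lift (tauF s h g') g = g) (n : ℕ) :
    FreeGroup.lift (tauF s h g') (tauF s h g n) = FreeGroup.of n := by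
  have hg' : g' = g⁻¹ := eq_inv_of_mul_eq_one_left hg
  by_cases h1 : n < 2 * s + 1 ∨ 2 * (s + h) ≤ n
  · rw [tauF, if_pos h1, FreeGroup.lift_apply_of, tauF, if_pos h1]
  by_cases h2 : n = 2 * s + 1
  · subst h2
    rw [tauF, if_neg h1, if_pos rfl, map_mul, hgg, tauF_b s h hh, hg', b]
    group
  · rw [tauF, if_neg h1, if_neg h2, map_mul, map_mul, map_inv, hgg, FreeGroup.lift_apply_of, tauF,
      if_neg h1, if_neg h2, hg']
    group

/-- the twist about `e = d_s ζ''` -/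
def tau (s h : ℕ) (hh : 1 ≤ h) : MulAut F :=
  mkAut (tauF s h (eT s h)) (tauF s h (eT s h)⁻¹)
    (tauF_comp s h hh _ _ (by group) (by rw [map_inv, tauF_e s h hh]; group))
    (tauF_comp s h hh _ _ (by group) (by rw [tauF_e s h hh]; group))

theorem tau_eq (s h : ℕ) (hh : 1 ≤ h) (x : F) :
    tau s h hh x = FreeGroup.lift (tauF s h (eT s h)) x := rfl

theorem tau_mem (s h : ℕ) (hh : 1 ≤ h) : tau s h hh ∈ StF s h := by
  constructor
  · obtain ⟨k, rfl⟩ : ∃ k, h = k + 1 := ⟨h - 1, by omega⟩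
    have h1 : zeta s (k + 1) = a s * eT s (k + 1) := by
      rw [zeta_succ', eT, d, H, Nat.add_sub_cancel]
      group
    rw [tau_eq, h1, map_mul, tauF_a, tauF_e s _ hh]
    group
  · intro n hn
    rw [tau_eq, FreeGroup.lift_apply_of, tauF, if_pos (by omega)]

/-! ### The subgroup `E = ⟨d_s, F''⟩` and `L = Delta ∩ E` -/

/-- `⟨d_s⟩ ⊔ FS (s+1) (h-1)` -/
def EE (s h : ℕ) : Subgroup F := Subgroup.zpowers (d s) ⊔ FS (s + 1) (h - 1)

theorem d_mem_EE (s h : ℕ) : d s ∈ EE s h := Subgroup.mem_sup_left (Subgroup.mem_zpowers _)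
theorem FS_le_EE (s h : ℕ) : FS (s + 1) (h - 1) ≤ EE s h := le_sup_right

theorem EE_le {s h : ℕ} {K : Subgroup F} (h1 : d s ∈ K) (h2 : FS (s + 1) (h - 1) ≤ K) :
    EE s h ≤ K := sup_le (by rwa [Subgroup.zpowers_le]) h2

theorem eT_mem_EE (s h : ℕ) : eT s h ∈ EE s h :=
  mul_mem (d_mem_EE s h) (FS_le_EE s h (zeta_mem_FS le_rfl le_rfl))

theorem tau_EE (s h : ℕ) (hh : 1 ≤ h) {x : F} (hx : x ∈ EE s h) :
    tau s h hh x = eT s h * x * (eT s h)⁻¹ := by
  have : EE s h ≤ MonoidHom.eqLocus (tau s h hh).toMonoidHom (MulAut.conj (eT s h)).toMonoidHom :=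
    EE_le (tauF_d s h hh _) (fun x hx => tauF_FS s h _ hx)
  exact this hx

/-- `Delta ∩ E` -/
def LL (s h : ℕ) : Subgroup F := Delta s h ⊓ EE s h

/-- the elements of `FS` as products of letters -/
theorem FS_list {s' h' : ℕ} {v : F} (hv : v ∈ FS s' h') :
    ∃ w : List F, (∀ z ∈ w, ∃ i, s' ≤ i ∧ i < s' + h' ∧ Lt i z) ∧ w.prod = v := by
  unfold FS at hv
  induction hv using Subgroup.closure_induction_right with
  | one => exact ⟨[], by simp, by simp⟩
  | mul_right x hx y hy ih =>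
    obtain ⟨w, hw, rfl⟩ := ih
    obtain ⟨n, n1, n2, rfl⟩ := hy
    refine ⟨w ++ [FreeGroup.of n], ?_, by simp⟩
    intro z hz
    rcases List.mem_append.1 hz with hz | hz
    · exact hw z hz
    · rw [List.mem_singleton.1 hz]
      rcases letter_cases n with ⟨h3, h4⟩ | ⟨h3, h4⟩
      · exact ⟨n / 2, by omega, by omega, Or.inl h3⟩
      · exact ⟨n / 2, by omega, by omega, Or.inr (Or.inl h3)⟩
  | mul_inv_cancel x hx y hy ih =>
    obtain ⟨w, hw, rfl⟩ := ih
    obtain ⟨n, n1, n2, rfl⟩ := hy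
    refine ⟨w ++ [(FreeGroup.of n)⁻¹], ?_, by simp⟩
    intro z hz
    rcases List.mem_append.1 hz with hz | hz
    · exact hw z hz
    · rw [List.mem_singleton.1 hz]
      rcases letter_cases n with ⟨h3, h4⟩ | ⟨h3, h4⟩
      · exact ⟨n / 2, by omega, by omega, Or.inr (Or.inr (Or.inl (by rw [h3])))⟩
      · exact ⟨n / 2, by omega, by omega, Or.inr (Or.inr (Or.inr (by rw [h3])))⟩

section main

variable {s h : ℕ} (hh : 2 ≤ h) (hAB : StF s h ≤ M s h)
include hh hAB

theorem e_normalizes {l : F} : l ∈ LL s h ↔ eT s h * l * (eT s h)⁻¹ ∈ LL s h := by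
  have ht : tau s h (by omega) ∈ M s h := hAB (tau_mem s h (by omega))
  have he := eT_mem_EE s h
  constructor
  · rintro ⟨h1, h2⟩
    refine Subgroup.mem_inf.2 ⟨?_, mul_mem (mul_mem he h2) (inv_mem he)⟩
    rw [← tau_EE s h (by omega) h2]
    exact Delta_map ht h1
  · rintro ⟨h1, h2⟩
    have h3 : l ∈ EE s h := by
      have : l = (eT s h)⁻¹ * (eT s h * l * (eT s h)⁻¹) * eT s h := by group
      rw [this]
      exact mul_mem (mul_mem (inv_mem he) h2) he
    refine ⟨?_, h3⟩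
    rw [← tau_EE s h (by omega) h3] at h1
    exact (Delta_map_iff ht).1 h1

/-- `d_s` normalises `L`. -/
theorem d_normalizes : d s ∈ Subgroup.normalizer (LL s h : Set F) := by
  have hz : zeta (s + 1) (h - 1) ∈ LL s h :=
    ⟨zeta_mem_Delta 1 (h - 1) (by omega), FS_le_EE s h (zeta_mem_FS le_rfl le_rfl)⟩
  have he : eT s h ∈ Subgroup.normalizer (LL s h : Set F) := by
    rw [Subgroup.mem_normalizer_iff]
    intro l
    exact e_normalizes hh hAB
  have : d s = eT s h * (zeta (s + 1) (h - 1))⁻¹ := by rw [eT]; group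
  rw [this]
  exact mul_mem he (inv_mem (Subgroup.le_normalizer hz))

theorem LL_conj {f : F} (hf : f ∈ Subgroup.zpowers (d s)) {l : F} (hl : l ∈ LL s h) :
    f * l * f⁻¹ ∈ LL s h := by
  have h1 : Subgroup.zpowers (d s) ≤ Subgroup.normalizer (LL s h : Set F) := by
    rw [Subgroup.zpowers_le]
    exact d_normalizes hh hAB
  exact (Subgroup.mem_normalizer_iff.1 (h1 hf) l).1 hl

omit hh hAB in
theorem LL_comm {f f' : F} (hf : f ∈ Subgroup.zpowers (d s)) (hf' : f' ∈ Subgroup.zpowers (d s)) :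
    f * f' * f⁻¹ * f'⁻¹ ∈ LL s h := by
  obtain ⟨m, rfl⟩ := hf
  obtain ⟨n, rfl⟩ := hf'
  have : (fun x => d s ^ x) m * (fun x => d s ^ x) n * ((fun x => d s ^ x) m)⁻¹ *
      ((fun x => d s ^ x) n)⁻¹ = 1 := by
    simp only
    group
  rw [this]
  exact one_mem _

/-- it is enough to check `SS` for the generator `d_s` -/
theorem SS_zpowers {g : F} (hg : g⁻¹ * d s * g * (d s)⁻¹ ∈ LL s h) :
    SS (LL s h) (Subgroup.zpowers (d s)) g := by
  intro f hf
  obtain ⟨m, rfl⟩ := hf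
  show g⁻¹ * d s ^ m * g * (d s ^ m)⁻¹ ∈ LL s h
  induction m using Int.induction_on with
  | zero => simp
  | succ m ih =>
    have : g⁻¹ * d s ^ ((m : ℤ) + 1) * g * (d s ^ ((m : ℤ) + 1))⁻¹ =
        (g⁻¹ * d s ^ (m : ℤ) * g * (d s ^ (m : ℤ))⁻¹) *
          (d s ^ (m : ℤ) * (g⁻¹ * d s * g * (d s)⁻¹) * (d s ^ (m : ℤ))⁻¹) := by
      rw [zpow_add, zpow_one]
      group
    rw [this]
    exact mul_mem ih (LL_conj hh hAB (Subgroup.zpow_mem_zpowers _ _) hg)
  | pred m ih =>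
    have : g⁻¹ * d s ^ (-(m : ℤ) - 1) * g * (d s ^ (-(m : ℤ) - 1))⁻¹ =
        (g⁻¹ * d s ^ (-(m : ℤ)) * g * (d s ^ (-(m : ℤ)))⁻¹) *
          (d s ^ (-(m : ℤ) - 1) * (g⁻¹ * d s * g * (d s)⁻¹)⁻¹ * (d s ^ (-(m : ℤ) - 1))⁻¹) := by
      rw [zpow_sub, zpow_one]
      group
    rw [this]
    exact mul_mem ih (LL_conj hh hAB (Subgroup.zpow_mem_zpowers _ _) (inv_mem hg))

omit hh hAB in
/-- A homomorphism with the right forms on the letters of `F''` and the right value at `d_s` maps `E` to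
itself. -/
theorem EE_map {π : F →* F} {z : F} (hz : z ∈ EE s h) (hd : π (d s) = z⁻¹ * d s * z)
    (hf : ∀ i, s < i → i < s + h → ∀ t, Lt i t → Fm (Subgroup.zpowers (d s)) z t (π t)) {x : F}
    (hx : x ∈ EE s h) : π x ∈ EE s h := by
  have hzp : Subgroup.zpowers (d s) ≤ EE s h := le_sup_left
  have key : ∀ i, s < i → i < s + h → ∀ t, Lt i t → t ∈ EE s h → π t ∈ EE s h := by
    intro i h1 h2 t ht htE
    obtain ⟨f0, hf0, r, hr, he⟩ := hf i h1 h2 t ht
    rw [he]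
    have hG : G3 (Subgroup.zpowers (d s)) z t ≤ EE s h := by
      unfold G3
      rw [Subgroup.closure_le]
      rintro x ⟨f, hf, rfl | rfl | rfl⟩
      · exact hzp hf
      · exact mul_mem (mul_mem (inv_mem hz) (hzp hf)) hz
      · exact mul_mem (mul_mem (inv_mem htE) (hzp hf)) htE
    exact mul_mem (mul_mem (mul_mem (mul_mem (inv_mem hz) (hzp hf0)) hz) htE) (hG hr)
  have : EE s h ≤ (EE s h).comap π := by
    apply EE_le
    · rw [Subgroup.mem_comap, hd]
      exact mul_mem (mul_mem (inv_mem hz) (d_mem_EE s h)) hz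
    · apply FS_le
      · intro i h1 h2
        exact key i (by omega) (by omega) _ (Or.inl rfl) (FS_le_EE s h (a_mem_FS (by omega) (by omega)))
      · intro i h1 h2
        exact key i (by omega) (by omega) _ (Or.inr (Or.inl rfl))
          (FS_le_EE s h (b_mem_FS (by omega) (by omega)))
  exact this hx

/-- the data of the push lemma for a push `R` along `z` -/
theorem dPush {R : MulAut F} (hR : R ∈ M s h) (ha : R (a s) = a s) {z : F}
    (hz : z ∈ FS (s + 1) (h - 1)) (hd : R (d s) = z⁻¹ * d s * z)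
    (hf : ∀ i, s < i → i < s + h → ∀ t, Lt i t → Fm (Subgroup.zpowers (d s)) z t (R t)) :
    ∃ π : F →* F, (∀ l ∈ LL s h, π l ∈ LL s h) ∧
      (∀ f ∈ Subgroup.zpowers (d s), π f = z⁻¹ * f * z) ∧
      SS (LL s h) (Subgroup.zpowers (d s)) z ∧
      ∀ i, s < i → i < s + h → ∀ t, Lt i t → Fm (Subgroup.zpowers (d s)) z t (π t) := by
  have hzE := FS_le_EE s h hz
  refine ⟨R.toMonoidHom, ?_, ?_, ?_, hf⟩
  · rintro l ⟨h1, h2⟩
    exact Subgroup.mem_inf.2 ⟨Delta_map hR h1, EE_map (π := R.toMonoidHom) hzE hd hf h2⟩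
  · rintro f ⟨m, rfl⟩
    show R (d s ^ m) = z⁻¹ * d s ^ m * z
    rw [map_zpow, hd]
    have := conj_zpow (i := m) (a := z⁻¹) (b := d s)
    rw [inv_inv] at this
    exact this
  · apply SS_zpowers hh hAB
    have h1 : d s * ((d s)⁻¹ * (z⁻¹ * d s * z)) * (d s)⁻¹ ∈ LL s h := by
      apply LL_conj hh hAB (Subgroup.mem_zpowers _)
      refine Subgroup.mem_inf.2 ⟨?_, mul_mem (inv_mem (d_mem_EE s h))
        (mul_mem (mul_mem (inv_mem hzE) (d_mem_EE s h)) hzE)⟩
      have h2 : H s ∈ Delta s h := H_mem_Delta 0 (by omega)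
      have h3 : R (H s) ∈ Delta s h := Delta_map hR h2
      have h4 : H s = a s * d s := by rw [H, d]; group
      rw [h4, map_mul, ha, hd] at h3
      rw [h4] at h2
      have : (d s)⁻¹ * (z⁻¹ * d s * z) = (a s * d s)⁻¹ * (a s * (z⁻¹ * d s * z)) := by group
      rw [this]
      exact mul_mem (inv_mem h2) h3
    have : z⁻¹ * d s * z * (d s)⁻¹ = d s * ((d s)⁻¹ * (z⁻¹ * d s * z)) * (d s)⁻¹ := by group
    rw [this]
    exact h1

/-- the data of the push lemma for the inverse of a push -/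
theorem dPush' {R : MulAut F} (hR : R ∈ M s h) (ha : R (a s) = a s) {z : F}
    (hz : z ∈ FS (s + 1) (h - 1)) (hd : Rc (d s) R (d s) = z⁻¹ * d s * z)
    (hf : ∀ i, s < i → i < s + h → ∀ t, Lt i t → Fm (Subgroup.zpowers (d s)) z t (Rc (d s) R t)) :
    ∃ π : F →* F, (∀ l ∈ LL s h, π l ∈ LL s h) ∧
      (∀ f ∈ Subgroup.zpowers (d s), π f = z⁻¹ * f * z) ∧
      SS (LL s h) (Subgroup.zpowers (d s)) z ∧
      ∀ i, s < i → i < s + h → ∀ t, Lt i t → Fm (Subgroup.zpowers (d s)) z t (π t) := by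
  have hzE := FS_le_EE s h hz
  refine ⟨(Rc (d s) R).toMonoidHom, ?_, ?_, ?_, hf⟩
  · rintro l ⟨h1, h2⟩
    have h3 : Rc (d s) R l ∈ EE s h :=
      EE_map (π := (Rc (d s) R).toMonoidHom) hzE hd hf h2
    have h4 : R⁻¹ l = d s * Rc (d s) R l * (d s)⁻¹ := by rw [Rc_apply]; group
    have h5 : R⁻¹ l ∈ LL s h := by
      refine Subgroup.mem_inf.2 ⟨Delta_map (inv_mem hR) h1, ?_⟩
      rw [h4]
      exact mul_mem (mul_mem (d_mem_EE s h) h3) (inv_mem (d_mem_EE s h))
    show Rc (d s) R l ∈ LL s h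
    rw [Rc_apply]
    have := LL_conj hh hAB (inv_mem (Subgroup.mem_zpowers (d s))) h5
    rwa [inv_inv] at this
  · rintro f ⟨m, rfl⟩
    show Rc (d s) R (d s ^ m) = z⁻¹ * d s ^ m * z
    rw [map_zpow, hd]
    have := conj_zpow (i := m) (a := z⁻¹) (b := d s)
    rw [inv_inv] at this
    exact this
  · apply SS_zpowers hh hAB
    refine Subgroup.mem_inf.2 ⟨?_, mul_mem (mul_mem (mul_mem (inv_mem hzE) (d_mem_EE s h)) hzE)
      (inv_mem (d_mem_EE s h))⟩
    have h2 : H s ∈ Delta s h := H_mem_Delta 0 (by omega)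
    have h3 : R⁻¹ (H s) ∈ Delta s h := Delta_map (inv_mem hR) h2
    have h4 : H s = a s * d s := by rw [H, d]; group
    have h5 : R⁻¹ (d s) = d s * (z⁻¹ * d s * z) * (d s)⁻¹ := by
      rw [← hd, Rc_apply]; group
    rw [h4, map_mul, aut_inv_fix ha, h5] at h3
    rw [h4] at h2
    have : z⁻¹ * d s * z * (d s)⁻¹ =
        (a s * d s)⁻¹ * (a s * (d s * (z⁻¹ * d s * z) * (d s)⁻¹)) := by group
    rw [this]
    exact mul_mem (inv_mem h2) h3

/-- **N2** -/
theorem N2 {v : F} (hv : v ∈ FS (s + 1) (h - 1)) :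
    SS (LL s h) (Subgroup.zpowers (d s)) v := by
  have hex : ∀ z : F, (∃ i, s + 1 ≤ i ∧ i < s + 1 + (h - 1) ∧ Lt i z) →
      ∃ π : F →* F, (∀ l ∈ LL s h, π l ∈ LL s h) ∧
        (∀ f ∈ Subgroup.zpowers (d s), π f = z⁻¹ * f * z) ∧
        SS (LL s h) (Subgroup.zpowers (d s)) z ∧
        ∀ i, s < i → i < s + h → ∀ t, Lt i t → Fm (Subgroup.zpowers (d s)) z t (π t) := by
    rintro z ⟨j, j1, j2, hz⟩
    obtain ⟨k, rfl⟩ := Nat.exists_eq_add_of_le j1
    have hQ := ZP_Qa s k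
    have hQm : Qa s k ∈ M s h := Qa_mem (by omega)
    have hQa := Qa_a s k
    have hw : w (s + 1 + k) ∈ M s h := w_mem_M (by omega) (by omega)
    have hQ' := hQ.rot (by omega) (d_mem_FS le_rfl (by omega))
    have hQm' : w (s + 1 + k) * Qa s k * (w (s + 1 + k))⁻¹ ∈ M s h :=
      mul_mem (mul_mem hw hQm) (inv_mem hw)
    have hQa' : (w (s + 1 + k) * Qa s k * (w (s + 1 + k))⁻¹) (a s) = a s := by
      rw [MulAut.mul_apply, MulAut.mul_apply, w_inv_a_out (by omega), hQa, w_a_out (by omega)]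
    have hβ : d s ∈ Subgroup.zpowers (d s) := Subgroup.mem_zpowers _
    have hza : a (s + 1 + k) ∈ FS (s + 1) (h - 1) := a_mem_FS (by omega) (by omega)
    have hzb : b (s + 1 + k) ∈ FS (s + 1) (h - 1) := b_mem_FS (by omega) (by omega)
    rcases hz with rfl | rfl | rfl | rfl
    · exact dPush hh hAB hQm hQa hza hQ.hβ (fun i h1 _ t ht => Fm_A1 hβ hQ h1 ht)
    · refine dPush' hh hAB hQm' hQa' hzb ?_ (fun i h1 _ t ht => Fm_B2 hβ hQ' h1 ht)
      rw [hQ'.Rc_β]; group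
    · refine dPush' hh hAB hQm hQa (inv_mem hza) ?_ (fun i h1 _ t ht => Fm_A2 hβ hQ h1 ht)
      rw [hQ.Rc_β]; group
    · exact dPush hh hAB hQm' hQa' (inv_mem hzb) hQ'.hβ (fun i h1 _ t ht => Fm_B1 hβ hQ' h1 ht)
  choose! π hπ using hex
  obtain ⟨w, hw, rfl⟩ := FS_list hv
  have h1 := push_lemma (fun z : F => ∃ i, s + 1 ≤ i ∧ i < s + 1 + (h - 1) ∧ Lt i z) id
    (LL s h) (Subgroup.zpowers (d s)) (fun f hf l hl => LL_conj hh hAB hf hl)
    (fun f hf f' hf' => LL_comm hf hf') π (fun z hz => (hπ z hz).1) (fun z hz => (hπ z hz).2.1)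
    (fun z hz => (hπ z hz).2.2.1) (fun z t hz ht => by
      obtain ⟨i, i1, i2, hti⟩ := ht
      exact (hπ z hz).2.2.2 i (by omega) (by omega) t hti) w hw
  rwa [List.map_id] at h1

/-- commutators of the powers of `d_s` with `F''` -/
theorem N2_d {v : F} (hv : v ∈ FS (s + 1) (h - 1)) (m : ℤ) :
    v⁻¹ * d s ^ m * v * (d s ^ m)⁻¹ ∈ Delta s h :=
  (N2 hh hAB hv _ (Subgroup.zpow_mem_zpowers _ _)).1

/-- commutators of the powers of `a_s` with `F''` -/
theorem N2_a {v : F} (hv : v ∈ FS (s + 1) (h - 1)) (m : ℤ) :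
    v⁻¹ * a s ^ m * v * (a s ^ m)⁻¹ ∈ Delta s h := by
  have hi : iota s ∈ M s h := iota_mem_M le_rfl (by omega)
  have hv' : iota s v = v := M_fix_FS (iota_mem s 1 le_rfl) (by omega) hv
  rw [← Delta_map_iff hi]
  simp only [map_mul, map_inv, map_zpow, iota_a0, hv']
  exact N2_d hh hAB hv m

/-- commutators of the powers of `b_s` with `F''` -/
theorem N2_b {v : F} (hv : v ∈ FS (s + 1) (h - 1)) (m : ℤ) :
    v⁻¹ * b s ^ m * v * (b s ^ m)⁻¹ ∈ Delta s h := by
  have hi : w s ∈ M s h := w_mem_M le_rfl (by omega)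
  have hv' : w s v = v := M_fix_FS (w_mem s 1 le_rfl) (by omega) hv
  have h1 := Delta_map hi (N2_a hh hAB hv (-m))
  simp only [map_mul, map_inv, map_zpow, w_a0, hv', inv_zpow', neg_neg] at h1
  exact h1

end main

end Pool.Agent.Torelli.B1
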