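import Pool.Agent.Torelli.B1.KOne

/-!
# Torelli project, part B1: `Delta s h` contains the commutator subgroup of `FS s h`
-/

set_option autoImplicit false

namespace Pool.Agent.Torelli.B1

open Pool.Agent.Torelli

/-! ### Subgroups containing the commutators of the letters -/

/-- the retraction killing the other letters -/
def retr (s h : ℕ) : F →* F :=
  FreeGroup.lift fun n => if 2 * s ≤ n ∧ n < 2 * (s + h) then FreeGroup.of n else 1

theorem retr_FS {s h : ℕ} {x : F} (hx : x ∈ FS s h) : retr s h x = x := by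
  have : FS s h ≤ MonoidHom.eqLocus (retr s h) (MonoidHom.id F) := by
    unfold FS
    rw [Subgroup.closure_le]
    rintro x ⟨n, h1, h2, rfl⟩
    show retr s h (FreeGroup.of n) = FreeGroup.of n
    rw [retr, FreeGroup.lift_apply_of, if_pos ⟨h1, h2⟩]
  exact this hx

theorem retr_mem (s h : ℕ) (x : F) : retr s h x ∈ FS s h := by
  have h1 : (retr s h).range ≤ FS s h := by
    unfold retr
    apply FreeGroup.range_lift_le
    rintro _ ⟨n, rfl⟩
    show (if 2 * s ≤ n ∧ n < 2 * (s + h) then (FreeGroup.of n : F) else 1) ∈ FS s h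
    split_ifs with h2
    · exact of_mem_FS h2.1 h2.2
    · exact one_mem _
  exact h1 ⟨x, rfl⟩

/-- closure of the commutators with a fixed element -/
theorem comm_mem_of_letters {s h : ℕ} {N : Subgroup F}
    (n1 : ∀ g ∈ FS s h, ∀ x ∈ N, g * x * g⁻¹ ∈ N) (x : F)
    (hx : ∀ n, 2 * s ≤ n → n < 2 * (s + h) →
      x * FreeGroup.of n * x⁻¹ * (FreeGroup.of n)⁻¹ ∈ N) {y : F} (hy : y ∈ FS s h) :
    x * y * x⁻¹ * y⁻¹ ∈ N := by
  set K : Subgroup F :=
    { carrier := {y | y ∈ FS s h ∧ x * y * x⁻¹ * y⁻¹ ∈ N}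
      one_mem' := ⟨one_mem _, by simp⟩
      mul_mem' := by
        rintro y y' ⟨h1, h2⟩ ⟨h1', h2'⟩
        refine ⟨mul_mem h1 h1', ?_⟩
        have : x * (y * y') * x⁻¹ * (y * y')⁻¹ =
            (x * y * x⁻¹ * y⁻¹) * (y * (x * y' * x⁻¹ * y'⁻¹) * y⁻¹) := by group
        rw [this]
        exact mul_mem h2 (n1 y h1 _ h2')
      inv_mem' := by
        rintro y ⟨h1, h2⟩
        refine ⟨inv_mem h1, ?_⟩
        have : x * y⁻¹ * x⁻¹ * y⁻¹⁻¹ = y⁻¹ * (x * y * x⁻¹ * y⁻¹)⁻¹ * y⁻¹⁻¹ := by group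
        rw [this]
        exact n1 _ (inv_mem h1) _ (inv_mem h2) } with hK
  have : FS s h ≤ K := by
    conv_lhs => unfold FS
    rw [Subgroup.closure_le]
    rintro y ⟨n, h1, h2, rfl⟩
    exact ⟨of_mem_FS h1 h2, hx n h1 h2⟩
  exact (this hy).2

theorem ABQ {s h : ℕ} {N : Subgroup F} (n1 : ∀ g ∈ FS s h, ∀ x ∈ N, g * x * g⁻¹ ∈ N)
    (n2 : ∀ m, 2 * s ≤ m → m < 2 * (s + h) → ∀ n, 2 * s ≤ n → n < 2 * (s + h) →
      FreeGroup.of m * FreeGroup.of n * (FreeGroup.of m)⁻¹ * (FreeGroup.of n)⁻¹ ∈ N)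
    {x : F} (hx : x ∈ FS s h) (hc : cl x = 1) : x ∈ N := by
  have h1 : ∀ m, 2 * s ≤ m → m < 2 * (s + h) → ∀ y ∈ FS s h,
      FreeGroup.of m * y * (FreeGroup.of m)⁻¹ * y⁻¹ ∈ N := fun m m1 m2 y hy =>
    comm_mem_of_letters n1 _ (n2 m m1 m2) hy
  have h2 : ∀ y ∈ FS s h, ∀ z ∈ FS s h, y * z * y⁻¹ * z⁻¹ ∈ N := by
    intro y hy z hz
    apply comm_mem_of_letters n1 _ _ hz
    intro n m1 m2
    have h3 := inv_mem (h1 n m1 m2 y hy)
    have h4 : (FreeGroup.of n * y * (FreeGroup.of n)⁻¹ * y⁻¹)⁻¹ =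
        y * FreeGroup.of n * y⁻¹ * (FreeGroup.of n)⁻¹ := by group
    rwa [h4] at h3
  have h3 : commutator F ≤ N.comap (retr s h) := by
    rw [commutator_def, Subgroup.commutator_le]
    intro y _ z _
    rw [Subgroup.mem_comap, commutatorElement_def, map_mul, map_mul, map_mul, map_inv, map_inv]
    exact h2 _ (retr_mem s h y) _ (retr_mem s h z)
  have h4 := h3 (cl_eq_one_iff.1 hc)
  rwa [Subgroup.mem_comap, retr_FS hx] at h4

/-- the elements all of whose conjugates by `A` are in `D` -/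
def core (A D : Subgroup F) : Subgroup F where
  carrier := {x | ∀ g ∈ A, g * x * g⁻¹ ∈ D}
  one_mem' := fun g _ => by simp
  mul_mem' := by
    intro x y hx hy g hg
    have : g * (x * y) * g⁻¹ = (g * x * g⁻¹) * (g * y * g⁻¹) := by group
    rw [this]
    exact mul_mem (hx g hg) (hy g hg)
  inv_mem' := by
    intro x hx g hg
    have : g * x⁻¹ * g⁻¹ = (g * x * g⁻¹)⁻¹ := by group
    rw [this]
    exact inv_mem (hx g hg)

theorem core_conj {A D : Subgroup F} {g : F} (hg : g ∈ A) {x : F} (hx : x ∈ core A D) :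
    g * x * g⁻¹ ∈ core A D := by
  intro g' hg'
  have : g' * (g * x * g⁻¹) * g'⁻¹ = (g' * g) * x * (g' * g)⁻¹ := by group
  rw [this]
  exact hx _ (mul_mem hg' hg)

theorem core_le {A D : Subgroup F} {x : F} (hx : x ∈ core A D) : x ∈ D := by
  have := hx 1 (one_mem _)
  simpa using this

/-- `[F1, F1]` -/
noncomputable def F0 (s : ℕ) : Subgroup F := FS s 1 ⊓ cl.ker

theorem H_mem_F0 (s : ℕ) : H s ∈ F0 s := Subgroup.mem_inf.2 ⟨H_mem_FS le_rfl (by omega), cl_H s⟩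

theorem F0_conj {s : ℕ} {g : F} (hg : g ∈ FS s 1) {f : F} (hf : f ∈ F0 s) :
    g * f * g⁻¹ ∈ F0 s := by
  obtain ⟨h1, h2⟩ := hf
  refine Subgroup.mem_inf.2 ⟨mul_mem (mul_mem hg h1) (inv_mem hg), ?_⟩
  have h3 : cl f = 1 := h2
  show cl (g * f * g⁻¹) = 1
  rw [map_mul, map_mul, map_inv, h3, mul_one, mul_inv_cancel]

theorem Da_F1' {s k : ℕ} {f : F} (hf : f ∈ FS s 1) :
    Da s k f = (a (s + 1 + k))⁻¹ * f * a (s + 1 + k) := by
  have h1 : (Da s k).toMonoidHom (a s) = (MulAut.conj (a (s + 1 + k))⁻¹).toMonoidHom (a s) := by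
    rw [conjHom_apply, inv_inv]
    exact (Da_F1 s k).1
  have h2 : (Da s k).toMonoidHom (b s) = (MulAut.conj (a (s + 1 + k))⁻¹).toMonoidHom (b s) := by
    rw [conjHom_apply, inv_inv]
    exact (Da_F1 s k).2
  have h3 := hom_eq_on_F1 h1 h2 hf
  rw [conjHom_apply, inv_inv] at h3
  exact h3

theorem TD_F1 {s : ℕ} {f : F} (hf : f ∈ FS s 1) : TD s f = H s * f * (H s)⁻¹ := by
  have h1 : (TD s).toMonoidHom (a s) = (MulAut.conj (H s)).toMonoidHom (a s) := by
    rw [conjHom_apply]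
    exact TD_a0 s
  have h2 : (TD s).toMonoidHom (b s) = (MulAut.conj (H s)).toMonoidHom (b s) := by
    rw [conjHom_apply]
    exact TD_b0 s
  have h3 := hom_eq_on_F1 h1 h2 hf
  rw [conjHom_apply] at h3
  exact h3

/-- the inverse push on the first handle -/
theorem Rc_F1 {s : ℕ} {R : MulAut F} {z : F} (hf1 : ∀ f ∈ FS s 1, R f = z⁻¹ * f * z)
    (hz : R⁻¹ z = H s * z * (H s)⁻¹) {f : F} (hf : f ∈ FS s 1) :
    Rc (H s) R (TD s f) = z * f * z⁻¹ := by
  obtain ⟨q, hq⟩ : ∃ q, q = H s * z * (H s)⁻¹ := ⟨_, rfl⟩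
  rw [← hq] at hz
  have key : ∀ f ∈ FS s 1, R⁻¹ f = q * f * q⁻¹ := by
    intro f hf
    have h2 : R⁻¹ (z⁻¹ * f * z) = f := by
      rw [← hf1 f hf]
      exact aut_inv_eq rfl
    rw [map_mul, map_mul, map_inv, hz] at h2
    calc R⁻¹ f = q * (q⁻¹ * R⁻¹ f * q) * q⁻¹ := by group
      _ = q * f * q⁻¹ := by rw [h2]
  rw [Rc_apply, TD_F1 hf, map_mul, map_mul, map_inv, key _ hf,
    key _ (H_mem_FS le_rfl (by omega)), hq]
  group

section main

variable {s h : ℕ} (hh : 2 ≤ h) (hAB : StF s h ≤ M s h)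
include hh hAB

theorem F0_le {f : F} (hf : f ∈ F0 s) : f ∈ Delta s h := by
  obtain ⟨h1, h2⟩ := hf
  apply core_le (A := FS s 1)
  refine ABQ (fun g hg x hx => core_conj hg hx) ?_ h1 h2
  have hH : H s ∈ core (FS s 1) (Delta s h) := fun g hg => K1 hh hAB hg
  intro m m1 m2 n n1 n2
  have hm : m = 2 * s ∨ m = 2 * s + 1 := by omega
  have hn : n = 2 * s ∨ n = 2 * s + 1 := by omega
  rcases hm with rfl | rfl <;> rcases hn with rfl | rfl
  · have : (FreeGroup.of (2 * s) : F) * FreeGroup.of (2 * s) * (FreeGroup.of (2 * s))⁻¹ *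
        (FreeGroup.of (2 * s))⁻¹ = 1 := by group
    rw [this]; exact one_mem _
  · exact hH
  · have : (FreeGroup.of (2 * s + 1) : F) * FreeGroup.of (2 * s) * (FreeGroup.of (2 * s + 1))⁻¹ *
        (FreeGroup.of (2 * s))⁻¹ = (H s)⁻¹ := by
      simp only [H, a, b]; group
    rw [this]; exact inv_mem hH
  · have : (FreeGroup.of (2 * s + 1) : F) * FreeGroup.of (2 * s + 1) *
        (FreeGroup.of (2 * s + 1))⁻¹ * (FreeGroup.of (2 * s + 1))⁻¹ = 1 := by group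
    rw [this]; exact one_mem _

/-- **K2** -/
theorem K2 {v : F} (hv : v ∈ FS (s + 1) (h - 1)) : SS (Delta s h) (F0 s) v := by
  have hle : F0 s ≤ Delta s h := fun f hf => F0_le hh hAB hf
  have hH : H s ∈ F0 s := H_mem_F0 s
  have hHD : H s ∈ Delta s h := hle hH
  have hT : TD s ∈ M s h := TD_mem s h (by omega)
  have hTt : ∀ i, s < i → ∀ t, Lt i t → TD s t = t := by
    intro i hi t ht
    rcases ht with rfl | rfl | rfl | rfl
    · exact TD_out s _ (by omega)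
    · exact TD_out s _ (by omega)
    · rw [map_inv]; congr 1; exact TD_out s _ (by omega)
    · rw [map_inv]; congr 1; exact TD_out s _ (by omega)
  -- the data for a push
  have hex : ∀ z : F, (∃ i, s + 1 ≤ i ∧ i < s + 1 + (h - 1) ∧ Lt i z) →
      ∃ π : F →* F, (∀ l ∈ Delta s h, π l ∈ Delta s h) ∧
        (∀ f ∈ F0 s, π f = z⁻¹ * f * z) ∧
        ∀ i, s < i → i < s + h → ∀ t, Lt i t → Fm (F0 s) z t (π t) := by
    rintro z ⟨j, j1, j2, hz⟩
    obtain ⟨k, rfl⟩ := Nat.exists_eq_add_of_le j1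
    have hD := ZP_Da s k
    have hDm : Da s k ∈ M s h := Da_mem (by omega)
    have hDa : ∀ f ∈ FS s 1, Da s k f = (a (s + 1 + k))⁻¹ * f * a (s + 1 + k) :=
      fun f hf => Da_F1' hf
    have hw : w (s + 1 + k) ∈ M s h := w_mem_M (by omega) (by omega)
    have hD' := hD.rot (by omega) (H_mem_FS le_rfl (by omega))
    have hDm' : w (s + 1 + k) * Da s k * (w (s + 1 + k))⁻¹ ∈ M s h :=
      mul_mem (mul_mem hw hDm) (inv_mem hw)
    have hDa' : ∀ f ∈ FS s 1, (w (s + 1 + k) * Da s k * (w (s + 1 + k))⁻¹) f =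
        (b (s + 1 + k))⁻¹⁻¹ * f * (b (s + 1 + k))⁻¹ := by
      intro f hf
      have hwf : w (s + 1 + k) f = f := w_fix_FS (by omega) hf
      rw [MulAut.mul_apply, MulAut.mul_apply, aut_inv_fix hwf, hDa f hf, map_mul, map_mul, map_inv,
        w_a0, hwf]
    have hpos : ∀ R : MulAut F, R ∈ M s h → ∀ l ∈ Delta s h, R l ∈ Delta s h :=
      fun R hR l hl => Delta_map hR hl
    have hneg : ∀ R : MulAut F, R ∈ M s h → ∀ l ∈ Delta s h,
        Rc (H s) R (TD s l) ∈ Delta s h := by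
      intro R hR l hl
      rw [Rc_apply]
      exact mul_mem (mul_mem (inv_mem hHD) (Delta_map (inv_mem hR) (Delta_map hT hl))) hHD
    rcases hz with rfl | rfl | rfl | rfl
    · exact ⟨(Da s k).toMonoidHom, hpos _ hDm, fun f hf => hDa f hf.1,
        fun i h1 _ t ht => Fm_A1 hH hD h1 ht⟩
    · refine ⟨(Rc (H s) (w (s + 1 + k) * Da s k * (w (s + 1 + k))⁻¹) * TD s).toMonoidHom,
        hneg _ hDm', fun f hf => ?_, fun i h1 _ t ht => ?_⟩
      · have := Rc_F1 hDa' hD'.inv_z hf.1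
        rw [inv_inv] at this
        exact this
      · have := Fm_B2 hH hD' h1 ht
        rw [← hTt i h1 t ht] at this
        nth_rewrite 1 [hTt i h1 t ht] at this
        exact this
    · refine ⟨(Rc (H s) (Da s k) * TD s).toMonoidHom,
        hneg _ hDm, fun f hf => ?_, fun i h1 _ t ht => ?_⟩
      · have := Rc_F1 hDa hD.inv_z hf.1
        rw [inv_inv]
        exact this
      · have := Fm_A2 hH hD h1 ht
        rw [← hTt i h1 t ht] at this
        nth_rewrite 1 [hTt i h1 t ht] at this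
        exact this
    · exact ⟨(w (s + 1 + k) * Da s k * (w (s + 1 + k))⁻¹).toMonoidHom, hpos _ hDm',
        fun f hf => hDa' f hf.1, fun i h1 _ t ht => Fm_B1 hH hD' h1 ht⟩
  choose! π hπ using hex
  obtain ⟨w, hw, rfl⟩ := FS_list hv
  have h1 := push_lemma (fun z : F => ∃ i, s + 1 ≤ i ∧ i < s + 1 + (h - 1) ∧ Lt i z) id
    (Delta s h) (F0 s)
    (fun f hf l hl => mul_mem (mul_mem (hle hf) hl) (inv_mem (hle hf)))
    (fun f hf f' hf' => mul_mem (mul_mem (mul_mem (hle hf) (hle hf')) (inv_mem (hle hf)))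
      (inv_mem (hle hf'))) π (fun z hz => (hπ z hz).1) (fun z hz => (hπ z hz).2.1)
    (fun z hz f hf => by
      have h2 := (hπ z hz).1 f (hle hf)
      rw [(hπ z hz).2.1 f hf] at h2
      exact mul_mem h2 (inv_mem (hle hf))) (fun z t hz ht => by
      obtain ⟨i, i1, i2, hti⟩ := ht
      exact (hπ z hz).2.2 i (by omega) (by omega) t hti) w hw
  rwa [List.map_id] at h1

theorem K2' {v : F} (hv : v ∈ FS (s + 1) (h - 1)) {f : F} (hf : f ∈ F0 s) :
    v⁻¹ * f * v ∈ Delta s h := by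
  have h1 := K2 hh hAB hv f hf
  have h2 := mul_mem h1 (F0_le hh hAB hf)
  rwa [inv_mul_cancel_right] at h2

/-- **K3** -/
theorem K3 {f v : F} (hf : f ∈ FS s 1) (hv : v ∈ FS (s + 1) (h - 1)) :
    v⁻¹ * f * v * f⁻¹ ∈ Delta s h := by
  obtain ⟨θ, hθ, c, hc⟩ := SP_one s _ (clv f) rfl
  have hθ' : θ ∈ M s h := M_mono le_rfl (by omega) hθ
  have hθv : θ v = v := M_fix_FS hθ (by omega) hv
  rw [← Delta_map_iff hθ']
  simp only [map_mul, map_inv, hθv]
  have hfs : ∀ n, n ≠ 2 * s → n ≠ 2 * s + 1 → clv f n = 0 := by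
    intro n h1 h2
    rw [← toAdd_expo]
    have : expo n f = 1 := by
      refine hom_eq_on_F1 (f := expo n) (g := 1) ?_ ?_ hf
      · rw [expo_a, if_neg (by omega)]; rfl
      · rw [expo_b, if_neg (by omega)]; rfl
    rw [this, toAdd_one]
  have h1 : clv f - clv f (2 * s) • ea s - clv f (2 * s + 1) • eb s = 0 := by
    ext n
    simp only [Finsupp.sub_apply, Finsupp.smul_apply, ea_apply, eb_apply, smul_eq_mul,
      Finsupp.zero_apply]
    by_cases hn : n = 2 * s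
    · subst hn; simp
    · by_cases hn' : n = 2 * s + 1
      · subst hn'; simp
      · rw [hfs n hn hn', if_neg hn, if_neg hn']; simp
  rw [h1, zero_add, act_clv] at hc
  set g := θ f with hg
  have hgF : g ∈ FS s 1 := M_FS hθ hf
  set p := a s ^ c with hp
  have hpF : p ∈ FS s 1 := zpow_mem (a_mem_F1 s) c
  set q := p⁻¹ * g with hq
  have hqF : q ∈ F0 s := by
    refine Subgroup.mem_inf.2 ⟨mul_mem (inv_mem hpF) hgF, ?_⟩
    show cl q = 1
    rw [← clv_eq_zero_iff, hq, clv_mul, clv_inv, hp, clv_zpow, clv_a, hc]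
    abel
  have hgq : g = p * q := by rw [hq]; group
  have hκ : v⁻¹ * p * v * p⁻¹ ∈ Delta s h := N2_a hh hAB hv c
  have h2 : v⁻¹ * (p * q * p⁻¹) * v ∈ Delta s h := K2' hh hAB hv (F0_conj hpF hqF)
  have h3 : p * q⁻¹ * p⁻¹ ∈ Delta s h := F0_le hh hAB (F0_conj hpF (inv_mem hqF))
  have h4 : v⁻¹ * g * v * g⁻¹ = v⁻¹ * (p * q * p⁻¹) * v * (v⁻¹ * p * v * p⁻¹) *
      (p * q⁻¹ * p⁻¹) := by
    rw [hgq]; group
  rw [h4]
  exact mul_mem (mul_mem h2 hκ) h3

/-- **K3**, second form -/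
theorem K3' {f v : F} (hf : f ∈ FS s 1) (hv : v ∈ FS (s + 1) (h - 1)) :
    f * v * f⁻¹ * v⁻¹ ∈ Delta s h := by
  have h1 := inv_mem (K3 hh hAB hf (inv_mem hv))
  have h2 : (v⁻¹⁻¹ * f * v⁻¹ * f⁻¹)⁻¹ = f * v * f⁻¹ * v⁻¹ := by group
  rwa [h2] at h1

theorem CC_le_Delta {c : F} (hc : c ∈ CC (FS s 1) (FS (s + 1) (h - 1))) : c ∈ Delta s h := by
  have : CC (FS s 1) (FS (s + 1) (h - 1)) ≤ Delta s h := by
    unfold CC
    rw [Subgroup.closure_le]
    rintro x ⟨f, hf, v, hv, rfl⟩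
    exact K3' hh hAB hf hv
  exact this hc

omit hAB in
/-- every element of `FS s h` is `c f v` -/
theorem FS_cfv {g : F} (hg : g ∈ FS s h) : ∃ c ∈ CC (FS s 1) (FS (s + 1) (h - 1)), ∃ f ∈ FS s 1,
    ∃ v ∈ FS (s + 1) (h - 1), g = c * f * v := by
  have key : ∀ g : F, (∃ c ∈ CC (FS s 1) (FS (s + 1) (h - 1)), ∃ f ∈ FS s 1,
      ∃ v ∈ FS (s + 1) (h - 1), g = c * f * v) → ∀ y : F,
      (y ∈ FS s 1 ∨ y ∈ FS (s + 1) (h - 1)) →
      ∃ c ∈ CC (FS s 1) (FS (s + 1) (h - 1)), ∃ f ∈ FS s 1,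
      ∃ v ∈ FS (s + 1) (h - 1), g * y = c * f * v := by
    rintro g ⟨c, hc, f, hf, v, hv, rfl⟩ y hy
    rcases hy with hy | hy
    · refine ⟨c * (f * (y * v * y⁻¹ * v⁻¹)⁻¹ * f⁻¹),
        mul_mem hc (CC_conj_left hf (inv_mem (CC_mem hy hv))), f * y, mul_mem hf hy, v, hv, ?_⟩
      group
    · exact ⟨c, hc, f, hf, v * y, mul_mem hv hy, by group⟩
  have hlet : ∀ n, 2 * s ≤ n → n < 2 * (s + h) →
      ((FreeGroup.of n : F) ∈ FS s 1 ∨ (FreeGroup.of n : F) ∈ FS (s + 1) (h - 1)) := by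
    intro n h1 h2
    rcases Nat.lt_or_ge n (2 * (s + 1)) with h3 | h3
    · exact Or.inl (of_mem_FS h1 h3)
    · exact Or.inr (of_mem_FS h3 (by omega))
  unfold FS at hg
  induction hg using Subgroup.closure_induction_right with
  | one => exact ⟨1, one_mem _, 1, one_mem _, 1, one_mem _, by group⟩
  | mul_right x hx y hy ih =>
    obtain ⟨n, n1, n2, rfl⟩ := hy
    exact key x ih _ (hlet n n1 n2)
  | mul_inv_cancel x hx y hy ih =>
    obtain ⟨n, n1, n2, rfl⟩ := hy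
    exact key x ih _ ((hlet n n1 n2).imp inv_mem inv_mem)

theorem H_conj {g : F} (hg : g ∈ FS s h) : g * H s * g⁻¹ ∈ Delta s h := by
  obtain ⟨c, hc, f, hf, v, hv, rfl⟩ := FS_cfv hh hg
  have hH : H s ∈ FS s 1 := H_mem_FS le_rfl (by omega)
  have h1 : f * (H s * v * (H s)⁻¹ * v⁻¹)⁻¹ * f⁻¹ ∈ Delta s h :=
    CC_le_Delta hh hAB (CC_conj_left hf (inv_mem (CC_mem hH hv)))
  have h2 : f * H s * f⁻¹ ∈ Delta s h := K1 hh hAB hf
  have hcD := CC_le_Delta hh hAB hc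
  have h3 : c * f * v * H s * (c * f * v)⁻¹ =
      c * (f * (H s * v * (H s)⁻¹ * v⁻¹)⁻¹ * f⁻¹ * (f * H s * f⁻¹)) * c⁻¹ := by group
  rw [h3]
  exact mul_mem (mul_mem hcD (mul_mem h1 h2)) (inv_mem hcD)

/-- **K4**: `Delta` is normalised by `FS s h`. -/
theorem Delta_conj {g : F} (hg : g ∈ FS s h) {x : F} (hx : x ∈ Delta s h) :
    g * x * g⁻¹ ∈ Delta s h := by
  have : Delta s h ≤ core (FS s h) (Delta s h) := by
    conv_lhs => unfold Delta
    rw [Subgroup.closure_le]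
    rintro x ⟨θ, hθ, rfl⟩ g hg
    have h1 : g = θ (θ⁻¹ g) := (MulAut.apply_inv_self F θ g).symm
    rw [h1, ← map_inv, ← map_mul, ← map_mul]
    exact Delta_map hθ (H_conj hh hAB (M_FS (inv_mem hθ) hg))
  exact this hx g hg

/-- commutators of different handles -/
theorem handles : ∀ i : ℕ, i < h → ∀ v ∈ FS (s + i + 1) (h - 1 - i),
    v⁻¹ * a (s + i) * v * (a (s + i))⁻¹ ∈ Delta s h ∧
      v⁻¹ * b (s + i) * v * (b (s + i))⁻¹ ∈ Delta s h
  | 0, _, v, hv => by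
    rw [Nat.add_zero, Nat.sub_zero] at hv
    exact ⟨K3 hh hAB (a_mem_F1 s) hv, K3 hh hAB (b_mem_F1 s) hv⟩
  | i + 1, hi, v, hv => by
    have hS : S (s + i) ∈ M s h := S_mem' (by omega) (by omega)
    have hSv : S (s + i) v = v := M_fix_FS (S_mem (s + i) 2 le_rfl) (by omega) hv
    obtain ⟨h1, h2⟩ := handles i (by omega) v (FS_mono (by omega) (by omega) hv)
    have h3 := Delta_map hS h1
    have h4 := Delta_map hS h2
    simp only [map_mul, map_inv, S_a0, S_b0, hSv] at h3 h4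
    exact ⟨h3, h4⟩

theorem handles' {i : ℕ} (h1 : s ≤ i) (h2 : i < s + h) {m : ℕ} (hm : m / 2 = i) {v : F}
    (hv : v ∈ FS (i + 1) (s + h - 1 - i)) :
    (FreeGroup.of m : F) * v * (FreeGroup.of m)⁻¹ * v⁻¹ ∈ Delta s h := by
  obtain ⟨k, rfl⟩ := Nat.exists_eq_add_of_le h1
  have hv' : v⁻¹ ∈ FS (s + k + 1) (h - 1 - k) := by
    have e : s + h - 1 - (s + k) = h - 1 - k := by omega
    rw [e] at hv
    exact inv_mem hv
  obtain ⟨h3, h4⟩ := handles hh hAB k (by omega) v⁻¹ hv'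
  rcases letter_cases m with ⟨h5, h6⟩ | ⟨h5, h6⟩
  · rw [h5, hm]
    have h7 := inv_mem h3
    have h8 : (v⁻¹⁻¹ * a (s + k) * v⁻¹ * (a (s + k))⁻¹)⁻¹ =
        a (s + k) * v * (a (s + k))⁻¹ * v⁻¹ := by group
    rwa [h8] at h7
  · rw [h5, hm]
    have h7 := inv_mem h4
    have h8 : (v⁻¹⁻¹ * b (s + k) * v⁻¹ * (b (s + k))⁻¹)⁻¹ =
        b (s + k) * v * (b (s + k))⁻¹ * v⁻¹ := by group
    rwa [h8] at h7

end main

/-- **B1** -/
theorem B1_main {s h : ℕ} (hh : 2 ≤ h) (hAB : StF s h ≤ M s h) {x : F} (hx : x ∈ FS s h)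
    (hc : cl x = 1) : x ∈ Delta s h := by
  refine ABQ (fun g hg x hx => Delta_conj hh hAB hg hx) ?_ hx hc
  intro m m1 m2 n n1 n2
  rcases lt_trichotomy (m / 2) (n / 2) with h1 | h1 | h1
  · exact handles' hh hAB (i := m / 2) (by omega) (by omega) rfl
      (of_mem_FS (by omega) (by omega))
  · obtain ⟨i, hi⟩ : ∃ i, m / 2 = s + i := ⟨m / 2 - s, by omega⟩
    have hH : H (s + i) ∈ Delta s h := H_mem_Delta i (by omega)
    rcases letter_cases m with ⟨h5, h6⟩ | ⟨h5, h6⟩ <;>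
      rcases letter_cases n with ⟨h7, h8⟩ | ⟨h7, h8⟩ <;> rw [h5, h7, ← h1, hi]
    · have : a (s + i) * a (s + i) * (a (s + i))⁻¹ * (a (s + i))⁻¹ = 1 := by group
      rw [this]; exact one_mem _
    · exact hH
    · have : b (s + i) * a (s + i) * (b (s + i))⁻¹ * (a (s + i))⁻¹ = (H (s + i))⁻¹ := by
        rw [H]; group
      rw [this]; exact inv_mem hH
    · have : b (s + i) * b (s + i) * (b (s + i))⁻¹ * (b (s + i))⁻¹ = 1 := by group
      rw [this]; exact one_mem _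
  · have h2 := inv_mem (handles' hh hAB (i := n / 2) (by omega) (by omega) rfl
      (of_mem_FS (n := m) (s := n / 2 + 1) (h := s + h - 1 - n / 2) (by omega) (by omega)))
    have h3 : ((FreeGroup.of n : F) * FreeGroup.of m * (FreeGroup.of n)⁻¹ * (FreeGroup.of m)⁻¹)⁻¹ =
        FreeGroup.of m * FreeGroup.of n * (FreeGroup.of m)⁻¹ * (FreeGroup.of n)⁻¹ := by group
    rwa [h3] at h2

end Pool.Agent.Torelli.B1
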