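import Pool.Agent.Torelli.B1.Mirror
import Pool.Agent.Torelli.SP.Trans

/-!
# Torelli project, part B1: the conjugates of `H s` by the elements of the first handle (`K1`)
-/

set_option autoImplicit false

namespace Pool.Agent.Torelli.B1

open Pool.Agent.Torelli

/-! ### The subgroup generated by the commutators of two subgroups -/

/-- the subgroup generated by the commutators `f v f⁻¹ v⁻¹`, `f ∈ A`, `v ∈ B` -/
def CC (A B : Subgroup F) : Subgroup F :=
  Subgroup.closure {x | ∃ f ∈ A, ∃ v ∈ B, x = f * v * f⁻¹ * v⁻¹}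

theorem CC_mem {A B : Subgroup F} {f v : F} (hf : f ∈ A) (hv : v ∈ B) :
    f * v * f⁻¹ * v⁻¹ ∈ CC A B := Subgroup.subset_closure ⟨f, hf, v, hv, rfl⟩

theorem CC_conj_left {A B : Subgroup F} {f' : F} (hf' : f' ∈ A) {c : F} (hc : c ∈ CC A B) :
    f' * c * f'⁻¹ ∈ CC A B := by
  have : CC A B ≤ (CC A B).comap (MulAut.conj f').toMonoidHom := by
    conv_lhs => unfold CC
    rw [Subgroup.closure_le]
    rintro x ⟨f, hf, v, hv, rfl⟩
    show f' * (f * v * f⁻¹ * v⁻¹) * f'⁻¹ ∈ CC A B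
    have h1 : f' * (f * v * f⁻¹ * v⁻¹) * f'⁻¹ =
        (f' * f * v * (f' * f)⁻¹ * v⁻¹) * (f' * v * f'⁻¹ * v⁻¹)⁻¹ := by group
    rw [h1]
    exact mul_mem (CC_mem (mul_mem hf' hf) hv) (inv_mem (CC_mem hf' hv))
  exact this hc

theorem CC_conj_right {A B : Subgroup F} {v' : F} (hv' : v' ∈ B) {c : F} (hc : c ∈ CC A B) :
    v' * c * v'⁻¹ ∈ CC A B := by
  have : CC A B ≤ (CC A B).comap (MulAut.conj v').toMonoidHom := by
    conv_lhs => unfold CC
    rw [Subgroup.closure_le]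
    rintro x ⟨f, hf, v, hv, rfl⟩
    show v' * (f * v * f⁻¹ * v⁻¹) * v'⁻¹ ∈ CC A B
    have h1 : v' * (f * v * f⁻¹ * v⁻¹) * v'⁻¹ =
        (f * v' * f⁻¹ * v'⁻¹)⁻¹ * (f * (v' * v) * f⁻¹ * (v' * v)⁻¹) := by group
    rw [h1]
    exact mul_mem (inv_mem (CC_mem hf hv')) (CC_mem hf (mul_mem hv' hv))
  exact this hc

theorem CC_normal {A B : Subgroup F} : A ⊔ B ≤ Subgroup.normalizer (CC A B : Set F) := by
  apply sup_le
  · intro f hf
    rw [Subgroup.mem_normalizer_iff]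
    intro c
    constructor
    · exact CC_conj_left hf
    · intro h
      have h1 := CC_conj_left (inv_mem hf) h
      have h2 : f⁻¹ * (f * c * f⁻¹) * f⁻¹⁻¹ = c := by group
      rwa [h2] at h1
  · intro f hf
    rw [Subgroup.mem_normalizer_iff]
    intro c
    constructor
    · exact CC_conj_right hf
    · intro h
      have h1 := CC_conj_right (inv_mem hf) h
      have h2 : f⁻¹ * (f * c * f⁻¹) * f⁻¹⁻¹ = c := by group
      rwa [h2] at h1

theorem CC_conj {A B : Subgroup F} {n : F} (hn : n ∈ A ⊔ B) {c : F} (hc : c ∈ CC A B) :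
    n * c * n⁻¹ ∈ CC A B := (Subgroup.mem_normalizer_iff.1 (CC_normal hn) c).1 hc

/-! ### Normal form in `⟨F1, x⟩` -/

/-- the projection killing `x = a_{s+1}` -/
def pr (s : ℕ) : F →* F := FreeGroup.lift fun n => if n = 2 * (s + 1) then 1 else FreeGroup.of n

/-- the exponent of a letter -/
def expo (m : ℕ) : F →* Multiplicative ℤ :=
  FreeGroup.lift fun n => if n = m then Multiplicative.ofAdd 1 else 1

theorem pr_x (s : ℕ) : pr s (a (s + 1)) = 1 := by rw [pr, lift_a, if_pos rfl]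
theorem pr_a (s : ℕ) : pr s (a s) = a s := by rw [pr, lift_a, if_neg (by omega), a]
theorem pr_b (s : ℕ) : pr s (b s) = b s := by rw [pr, lift_b, if_neg (by omega), b]

theorem FS_one_le {s : ℕ} {K : Subgroup F} (ha : a s ∈ K) (hb : b s ∈ K) : FS s 1 ≤ K :=
  FS_le (fun i h1 h2 => by have h3 : i = s := by omega
                           rw [h3]; exact ha)
    (fun i h1 h2 => by have h3 : i = s := by omega
                       rw [h3]; exact hb)

theorem hom_eq_on_F1 {G : Type*} [Group G] {s : ℕ} {f g : F →* G} (ha : f (a s) = g (a s))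
    (hb : f (b s) = g (b s)) {x : F} (hx : x ∈ FS s 1) : f x = g x := by
  have : FS s 1 ≤ MonoidHom.eqLocus f g := FS_one_le ha hb
  exact this hx

theorem pr_F1 {s : ℕ} {x : F} (hx : x ∈ FS s 1) : pr s x = x :=
  hom_eq_on_F1 (g := MonoidHom.id F) (pr_a s) (pr_b s) hx

theorem expo_a (m i : ℕ) : expo m (a i) = if 2 * i = m then Multiplicative.ofAdd 1 else 1 := by
  rw [expo, a, FreeGroup.lift_apply_of]
theorem expo_b (m i : ℕ) : expo m (b i) = if 2 * i + 1 = m then Multiplicative.ofAdd 1 else 1 := by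
  rw [expo, b, FreeGroup.lift_apply_of]

theorem expo_F1 {s : ℕ} {x : F} (hx : x ∈ FS s 1) : expo (2 * (s + 1)) x = 1 :=
  hom_eq_on_F1 (f := expo (2 * (s + 1))) (g := 1) (by rw [expo_a, if_neg (by omega)]; rfl)
    (by rw [expo_b, if_neg (by omega)]; rfl) hx

/-- `⟨F1, x⟩` -/
def NN (s : ℕ) : Subgroup F := FS s 1 ⊔ Subgroup.zpowers (a (s + 1))

theorem NN_le {s : ℕ} {K : Subgroup F} (ha : a s ∈ K) (hb : b s ∈ K) (hx : a (s + 1) ∈ K) :
    NN s ≤ K := sup_le (FS_one_le ha hb) (by rwa [Subgroup.zpowers_le])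

theorem x_mem_NN (s : ℕ) : a (s + 1) ∈ NN s := Subgroup.mem_sup_right (Subgroup.mem_zpowers _)
theorem F1_le_NN (s : ℕ) : FS s 1 ≤ NN s := le_sup_left
theorem a_mem_F1 (s : ℕ) : a s ∈ FS s 1 := a_mem_FS le_rfl (by omega)
theorem b_mem_F1 (s : ℕ) : b s ∈ FS s 1 := b_mem_FS le_rfl (by omega)

/-- `Cx` -/
def Cx (s : ℕ) : Subgroup F := CC (FS s 1) (Subgroup.zpowers (a (s + 1)))

/-- the exponent of `x` as an integer -/
def ex (s : ℕ) (n : F) : ℤ := Multiplicative.toAdd (expo (2 * (s + 1)) n)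

theorem ex_mul (s : ℕ) (n n' : F) : ex s (n * n') = ex s n + ex s n' := by
  unfold ex; rw [map_mul, toAdd_mul]
theorem ex_inv (s : ℕ) (n : F) : ex s n⁻¹ = - ex s n := by unfold ex; rw [map_inv, toAdd_inv]
theorem ex_F1 {s : ℕ} {n : F} (hn : n ∈ FS s 1) : ex s n = 0 := by
  unfold ex; rw [expo_F1 hn, toAdd_one]
theorem ex_x (s : ℕ) : ex s (a (s + 1)) = 1 := by
  unfold ex; rw [expo_a, if_pos rfl]; rfl

theorem pr_NN {s : ℕ} {n : F} (hn : n ∈ NN s) : pr s n ∈ FS s 1 := by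
  have : NN s ≤ (FS s 1).comap (pr s) := by
    apply NN_le
    · rw [Subgroup.mem_comap, pr_a]; exact a_mem_F1 s
    · rw [Subgroup.mem_comap, pr_b]; exact b_mem_F1 s
    · rw [Subgroup.mem_comap, pr_x]; exact one_mem _
  exact this hn

/-- the normal form modulo `Cx` -/
theorem NN_nf {s : ℕ} {n : F} (hn : n ∈ NN s) :
    n * a (s + 1) ^ (-(ex s n)) * (pr s n)⁻¹ ∈ Cx s := by
  have hC : ∀ p ∈ FS s 1, ∀ m : ℤ, p * a (s + 1) ^ m * p⁻¹ * (a (s + 1) ^ m)⁻¹ ∈ Cx s :=
    fun p hp m => CC_mem hp (Subgroup.zpow_mem_zpowers _ _)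
  set K : Subgroup F :=
    { carrier := {n | n ∈ NN s ∧ n * a (s + 1) ^ (-(ex s n)) * (pr s n)⁻¹ ∈ Cx s}
      one_mem' := ⟨one_mem _, by
        have : ex s 1 = 0 := ex_F1 (one_mem _)
        rw [this, map_one]; simp⟩
      mul_mem' := by
        rintro n n' ⟨h1, h2⟩ ⟨h1', h2'⟩
        refine ⟨mul_mem h1 h1', ?_⟩
        have hp' := pr_NN h1'
        have e : n * n' * a (s + 1) ^ (-(ex s (n * n'))) * (pr s (n * n'))⁻¹ =
            (n * (n' * a (s + 1) ^ (-(ex s n')) * (pr s n')⁻¹) * n⁻¹) *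
            (n * (pr s n' * a (s + 1) ^ (-(ex s n)) * (pr s n')⁻¹ *
              (a (s + 1) ^ (-(ex s n)))⁻¹) * n⁻¹) *
            (n * a (s + 1) ^ (-(ex s n)) * (pr s n)⁻¹) := by
          rw [ex_mul, map_mul, neg_add_rev, zpow_add]
          group
        rw [e]
        exact mul_mem (mul_mem (CC_conj h1 h2') (CC_conj h1 (hC _ hp' _))) h2
      inv_mem' := by
        rintro n ⟨h1, h2⟩
        refine ⟨inv_mem h1, ?_⟩
        have hp := pr_NN h1
        have e : n⁻¹ * a (s + 1) ^ (-(ex s n⁻¹)) * (pr s n⁻¹)⁻¹ =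
            ((a (s + 1) ^ (-(ex s n)) * (pr s n)⁻¹) *
              (n * a (s + 1) ^ (-(ex s n)) * (pr s n)⁻¹)⁻¹ *
              (a (s + 1) ^ (-(ex s n)) * (pr s n)⁻¹)⁻¹) *
            ((pr s n)⁻¹ * a (s + 1) ^ (-(ex s n)) * (pr s n)⁻¹⁻¹ *
              (a (s + 1) ^ (-(ex s n)))⁻¹)⁻¹ := by
          rw [ex_inv, map_inv, neg_neg, zpow_neg]
          group
        rw [e]
        have h3 : a (s + 1) ^ (-(ex s n)) * (pr s n)⁻¹ ∈ NN s :=
          mul_mem (zpow_mem (x_mem_NN s) _) (F1_le_NN s (inv_mem hp))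
        exact mul_mem (CC_conj h3 (inv_mem h2)) (inv_mem (hC _ (inv_mem hp) _)) } with hK
  have : NN s ≤ K := by
    apply NN_le
    · refine ⟨F1_le_NN s (a_mem_F1 s), ?_⟩
      rw [ex_F1 (a_mem_F1 s), pr_a]
      simp
    · refine ⟨F1_le_NN s (b_mem_F1 s), ?_⟩
      rw [ex_F1 (b_mem_F1 s), pr_b]
      simp
    · refine ⟨x_mem_NN s, ?_⟩
      rw [ex_x, pr_x]
      simp
  exact (this hn).2

/-! ### The maps `m2` and `mu` -/

theorem w_inv_a (i : ℕ) : (w i)⁻¹ (a i) = a i * b i := by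
  apply aut_inv_eq
  rw [map_mul, w_a0, w_b0]; group
theorem w_inv_b (i : ℕ) : (w i)⁻¹ (b i) = (a i)⁻¹ := by
  apply aut_inv_eq
  rw [map_inv, w_a0]; group

/-- `m2 = w_s⁻² P_s w_s²` -/
def m2 (s : ℕ) : MulAut F := (w s)⁻¹ * (w s)⁻¹ * P s * w s * w s

theorem m2_mem {s h : ℕ} (hh : 2 ≤ h) : m2 s ∈ M s h := by
  have hw : w s ∈ M s h := w_mem_M le_rfl (by omega)
  have hP : P s ∈ M s h := P_mem_M le_rfl (by omega)
  exact mul_mem (mul_mem (mul_mem (mul_mem (inv_mem hw) (inv_mem hw)) hP) hw) hw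

theorem m2_a (s : ℕ) : m2 s (a s) = a s * a (s + 1) := by
  simp only [m2, MulAut.mul_apply, w_a0, w_b0, map_mul, map_inv, P_a, P_b, w_inv_a, w_inv_b,
    w_inv_a_out (show s + 1 ≠ s by omega)]
  group
theorem m2_b (s : ℕ) : m2 s (b s) = (a (s + 1))⁻¹ * b s * a (s + 1) := by
  simp only [m2, MulAut.mul_apply, w_a0, w_b0, map_mul, map_inv, P_a, P_b, w_inv_a, w_inv_b,
    w_inv_a_out (show s + 1 ≠ s by omega)]
  group
theorem m2_y (s : ℕ) :
    m2 s (b (s + 1)) = b (s + 1) * ((a (s + 1))⁻¹ * b s * a (s + 1))⁻¹ := by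
  simp only [m2, MulAut.mul_apply, w_b_out (show s + 1 ≠ s by omega), P_y, d, map_mul, map_inv,
    w_inv_a, w_inv_b, w_inv_a_out (show s + 1 ≠ s by omega),
    w_inv_b_out (show s + 1 ≠ s by omega)]
  group

/-- the push of the first handle along `y` -/
def Dy (s : ℕ) : MulAut F := w (s + 1) * DX s * (w (s + 1))⁻¹

theorem Dy_mem {s h : ℕ} (hh : 2 ≤ h) : Dy s ∈ M s h := by
  have hw : w (s + 1) ∈ M s h := w_mem_M (by omega) (by omega)
  have hD : DX s ∈ M s h := M_mono le_rfl (by omega) (DX_mem s 2 le_rfl)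
  exact mul_mem (mul_mem hw hD) (inv_mem hw)

theorem Dy_a (s : ℕ) : Dy s (a s) = b (s + 1) * a s * (b (s + 1))⁻¹ := by
  simp only [Dy, MulAut.mul_apply, w_inv_a_out (show s ≠ s + 1 by omega), DX_a0, map_mul, map_inv,
    w_a0, w_a_out (show s ≠ s + 1 by omega), inv_inv]
theorem Dy_b (s : ℕ) : Dy s (b s) = b (s + 1) * b s * (b (s + 1))⁻¹ := by
  simp only [Dy, MulAut.mul_apply, w_inv_b_out (show s ≠ s + 1 by omega), DX_b0, map_mul, map_inv,
    w_a0, w_b_out (show s ≠ s + 1 by omega), inv_inv]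

/-- `n ↦ iota⁻¹ (Dy⁻¹ (y n y⁻¹))` -/
def mu (s : ℕ) : MulAut F := (iota (s + 1))⁻¹ * (Dy s)⁻¹ * MulAut.conj (b (s + 1))

theorem mu_apply (s : ℕ) (n : F) :
    mu s n = (iota (s + 1))⁻¹ ((Dy s)⁻¹ (b (s + 1) * n * (b (s + 1))⁻¹)) := by
  simp [mu, MulAut.mul_apply, MulAut.conj_apply]

theorem mu_a (s : ℕ) : mu s (a s) = a s := by
  rw [mu_apply, aut_inv_eq (Dy_a s)]
  exact aut_inv_fix (iota_out (s + 1) _ (by omega))
theorem mu_b (s : ℕ) : mu s (b s) = b s := by
  rw [mu_apply, aut_inv_eq (Dy_b s)]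
  exact aut_inv_fix (iota_out (s + 1) _ (by omega))
theorem mu_x (s : ℕ) : mu s (a (s + 1)) = (a (s + 1))⁻¹ * (H s)⁻¹ := by
  have hD : ZP s (s + 1) (H s) (b (s + 1))⁻¹ (b (s + 1) * a (s + 1)) (Dy s) :=
    (ZP_DX s).rot (by omega) (H_mem_FS le_rfl (by omega))
  have h1 : (Dy s)⁻¹ (b (s + 1) * a (s + 1) * (b (s + 1))⁻¹) =
      b (s + 1) * a (s + 1) * (b (s + 1))⁻¹ * (H s)⁻¹ := by
    rw [map_mul (Dy s)⁻¹ (b (s + 1) * a (s + 1)), hD.inv_v, hD.inv_z]
    group
  have h2 : iota (s + 1) (H s) = H s :=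
    M_fix_FS (iota_mem (s + 1) 1 le_rfl) (by omega) (H_mem_FS (s := s) (h := 1) le_rfl (by omega))
  rw [mu_apply, h1]
  apply aut_inv_eq
  rw [map_mul, map_inv, map_inv, h2, iota_a0, d]
  group

theorem comp3_apply (f : F →* F) (g k : MulAut F) (x : F) :
    ((f.comp g.toMonoidHom).comp k.toMonoidHom) x = f (g (k x)) := rfl
theorem conjHom_apply (q x : F) : (MulAut.conj q).toMonoidHom x = q * x * q⁻¹ := rfl

section main

variable {s h : ℕ} (hh : 2 ≤ h) (hAB : StF s h ≤ M s h)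
include hh hAB

theorem Cx_le : Cx s ≤ Delta s h := by
  unfold Cx CC
  rw [Subgroup.closure_le]
  rintro x ⟨f, hf, v, ⟨m, rfl⟩, rfl⟩
  have := (N3 hh hAB (inv_mem hf) m).1
  rwa [inv_inv] at this

/-- **K1** for elements with exponent sum zero of `a_s` -/
theorem K1_zero {g : F} (hg : g ∈ FS s 1) (h0 : expo (2 * s) g = 1) :
    g * H s * g⁻¹ ∈ Delta s h := by
  set x := a (s + 1) with hx
  set y := b (s + 1) with hy
  set b' := x⁻¹ * b s * x with hb'
  set G := m2 s g with hG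
  have hGN : G ∈ NN s := by
    have : FS s 1 ≤ (NN s).comap (m2 s).toMonoidHom := by
      apply FS_one_le
      · show m2 s (a s) ∈ NN s
        rw [m2_a]
        exact mul_mem (F1_le_NN s (a_mem_F1 s)) (x_mem_NN s)
      · show m2 s (b s) ∈ NN s
        rw [m2_b]
        exact mul_mem (mul_mem (inv_mem (x_mem_NN s)) (F1_le_NN s (b_mem_F1 s))) (x_mem_NN s)
    exact this hg
  have hGp : pr s G = g := by
    refine hom_eq_on_F1 (f := (pr s).comp (m2 s).toMonoidHom) (g := MonoidHom.id F) ?_ ?_ hg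
    · show pr s (m2 s (a s)) = a s
      rw [m2_a, map_mul, pr_a, pr_x, mul_one]
    · show pr s (m2 s (b s)) = b s
      rw [m2_b, map_mul, map_mul, map_inv, pr_b, pr_x]
      group
  have hGe : expo (2 * (s + 1)) G = expo (2 * s) g := by
    refine hom_eq_on_F1 (f := (expo (2 * (s + 1))).comp (m2 s).toMonoidHom)
      (g := expo (2 * s)) ?_ ?_ hg
    · show expo (2 * (s + 1)) (m2 s (a s)) = _
      rw [m2_a, map_mul, expo_a, expo_a, expo_a, if_neg (by omega), if_pos rfl, if_pos rfl, one_mul]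
    · show expo (2 * (s + 1)) (m2 s (b s)) = _
      rw [m2_b, map_mul, map_mul, map_inv, expo_b, expo_b,
        if_neg (show ¬ (2 * s + 1 = 2 * (s + 1)) by omega), if_neg (show ¬ (2 * s + 1 = 2 * s) by omega)]
      simp
  have hex : ex s G = 0 := by unfold ex; rw [hGe, h0, toAdd_one]
  have hGg : G * g⁻¹ ∈ Delta s h := by
    have := Cx_le hh hAB (NN_nf hGN)
    rw [hex, hGp, neg_zero, zpow_zero, mul_one] at this
    exact this
  have hgy : g * y * g⁻¹ * y⁻¹ ∈ Delta s h := by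
    have := (N3 hh hAB (inv_mem hg) 1).2
    rwa [inv_inv, zpow_one] at this
  have hm : G * (y * b'⁻¹) * G⁻¹ * (y * b'⁻¹)⁻¹ ∈ Delta s h := by
    have := Delta_map (m2_mem hh) hgy
    simp only [map_mul, map_inv] at this
    rw [hy, m2_y] at this
    exact this
  set T := g * b'⁻¹ * G⁻¹ * b' with hT
  have hyT : y * T * y⁻¹ ∈ Delta s h := by
    have : y * T * y⁻¹ = (g * y * g⁻¹ * y⁻¹)⁻¹ * (G * g⁻¹)⁻¹ *
        (G * (y * b'⁻¹) * G⁻¹ * (y * b'⁻¹)⁻¹) := by rw [hT]; group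
    rw [this]
    exact mul_mem (mul_mem (inv_mem hgy) (inv_mem hGg)) hm
  have hi : iota (s + 1) ∈ M s h := iota_mem_M (by omega) (by omega)
  have hmuT : mu s T ∈ Delta s h := by
    rw [mu_apply]
    exact Delta_map (inv_mem hi) (Delta_map (inv_mem (Dy_mem hh)) hyT)
  -- `mu` preserves `NN`
  have hH : H s ∈ FS s 1 := H_mem_FS le_rfl (by omega)
  have hmuN : ∀ n ∈ NN s, mu s n ∈ NN s := by
    have : NN s ≤ (NN s).comap (mu s).toMonoidHom := by
      apply NN_le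
      · show mu s (a s) ∈ NN s
        rw [mu_a]; exact F1_le_NN s (a_mem_F1 s)
      · show mu s (b s) ∈ NN s
        rw [mu_b]; exact F1_le_NN s (b_mem_F1 s)
      · show mu s (a (s + 1)) ∈ NN s
        rw [mu_x]; exact mul_mem (inv_mem (x_mem_NN s)) (F1_le_NN s (inv_mem hH))
    exact this
  have hb'N : b' ∈ NN s :=
    mul_mem (mul_mem (inv_mem (x_mem_NN s)) (F1_le_NN s (b_mem_F1 s))) (x_mem_NN s)
  have hTN : T ∈ NN s :=
    mul_mem (mul_mem (mul_mem (F1_le_NN s hg) (inv_mem hb'N)) (inv_mem hGN)) hb'N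
  have hmue : ∀ n ∈ NN s, ex s (mu s n) = - ex s n := by
    have h1 : NN s ≤ MonoidHom.eqLocus ((expo (2 * (s + 1))).comp (mu s).toMonoidHom)
        ((expo (2 * (s + 1)))⁻¹ : F →* Multiplicative ℤ) := by
      apply NN_le
      · show expo (2 * (s + 1)) (mu s (a s)) = (expo (2 * (s + 1)) (a s))⁻¹
        rw [mu_a, expo_F1 (a_mem_F1 s), inv_one]
      · show expo (2 * (s + 1)) (mu s (b s)) = (expo (2 * (s + 1)) (b s))⁻¹
        rw [mu_b, expo_F1 (b_mem_F1 s), inv_one]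
      · show expo (2 * (s + 1)) (mu s (a (s + 1))) = (expo (2 * (s + 1)) (a (s + 1)))⁻¹
        rw [mu_x, map_mul, map_inv, map_inv, expo_F1 hH, inv_one, mul_one]
    intro n hn
    have h2 : expo (2 * (s + 1)) (mu s n) = (expo (2 * (s + 1)) n)⁻¹ := h1 hn
    unfold ex
    rw [h2, toAdd_inv]
  have hexT : ex s (mu s T) = 0 := by
    rw [hmue T hTN, hT, ex_mul, ex_mul, ex_mul, ex_inv, ex_inv, ex_F1 hg, hex]
    ring
  -- the value of the projection
  obtain ⟨q, hq⟩ : ∃ q, q = H s * b s := ⟨_, rfl⟩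
  have hpG : pr s (mu s G) = q * g * q⁻¹ := by
    have k1 : ((pr s).comp (mu s).toMonoidHom).comp (m2 s).toMonoidHom (a s) =
        (MulAut.conj q).toMonoidHom (a s) := by
      rw [comp3_apply, conjHom_apply]
      simp only [m2_a, map_mul, map_inv, mu_a, mu_x, pr_a, pr_x, pr_F1 hH, hq]
      simp only [H]
      group
    have k2 : ((pr s).comp (mu s).toMonoidHom).comp (m2 s).toMonoidHom (b s) =
        (MulAut.conj q).toMonoidHom (b s) := by
      rw [comp3_apply, conjHom_apply]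
      simp only [m2_b, map_mul, map_inv, mu_b, mu_x, pr_b, pr_x, pr_F1 hH, hq]
      group
    have k3 := hom_eq_on_F1 k1 k2 hg
    rw [comp3_apply, conjHom_apply, ← hG] at k3
    exact k3
  have hpb : pr s (mu s b') = H s * b s * (H s)⁻¹ := by
    simp only [hb', hx, map_mul, map_inv, mu_b, mu_x, pr_b, pr_x, pr_F1 hH]
    group
  have hpg : pr s (mu s g) = g := by
    refine hom_eq_on_F1 (f := (pr s).comp (mu s).toMonoidHom) (g := MonoidHom.id F) ?_ ?_ hg
    · show pr s (mu s (a s)) = a s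
      rw [mu_a, pr_a]
    · show pr s (mu s (b s)) = b s
      rw [mu_b, pr_b]
  have hpT : pr s (mu s T) = g * H s * g⁻¹ * (H s)⁻¹ := by
    simp only [hT, map_mul, map_inv, hpG, hpb, hpg, hq]
    group
  have hfin : mu s T * (g * H s * g⁻¹ * (H s)⁻¹)⁻¹ ∈ Delta s h := by
    have := Cx_le hh hAB (NN_nf (hmuN T hTN))
    rw [hexT, hpT, neg_zero, zpow_zero, mul_one] at this
    exact this
  have : g * H s * g⁻¹ = (mu s T * (g * H s * g⁻¹ * (H s)⁻¹)⁻¹)⁻¹ * mu s T * H s := by group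
  rw [this]
  exact mul_mem (mul_mem (inv_mem hfin) hmuT) (H_mem_Delta (s := s) 0 (by omega))

omit hh hAB in
theorem expo_w (s : ℕ) (g : F) : expo (2 * s) (w s g) = expo (2 * s + 1) g := by
  have : (expo (2 * s)).comp (w s).toMonoidHom = expo (2 * s + 1) := by
    apply hom_ext_ab
    · intro j
      show expo (2 * s) (w s (a j)) = _
      by_cases hj : j = s
      · subst hj
        rw [w_a0, map_inv, expo_b, expo_a, if_neg (by omega), if_neg (by omega), inv_one]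
      · rw [w_a_out hj, expo_a, expo_a, if_neg (by omega), if_neg (by omega)]
    · intro j
      show expo (2 * s) (w s (b j)) = _
      by_cases hj : j = s
      · subst hj
        rw [w_b0, map_mul, expo_b, expo_a, expo_b, if_neg (by omega), if_pos rfl, if_pos rfl,
          one_mul]
      · rw [w_b_out hj, expo_b, expo_b, if_neg (by omega), if_neg (by omega)]
  exact DFunLike.congr_fun this g

omit hh hAB in
theorem toAdd_expo (m : ℕ) (g : F) : Multiplicative.toAdd (expo m g) = clv g m := by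
  have : expo m = (AddMonoidHom.toMultiplicative (Finsupp.applyAddHom m)).comp cl := by
    apply hom_ext_of
    intro n
    rw [MonoidHom.comp_apply, cl_of, expo, FreeGroup.lift_apply_of]
    by_cases h : n = m
    · subst h
      simp
    · simp [h]
  rw [this]
  rfl

/-- **K1** -/
theorem K1 {f : F} (hf : f ∈ FS s 1) : f * H s * f⁻¹ ∈ Delta s h := by
  obtain ⟨θ, hθ, c, hc⟩ := SP_one s _ (clv f) rfl
  have hw : w s ∈ M s 1 := w_mem_M le_rfl (by omega)
  have hwθ : w s * θ ∈ M s 1 := mul_mem hw hθ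
  have hwθ' : w s * θ ∈ M s h := M_mono le_rfl (by omega) hwθ
  rw [← Delta_map_iff hwθ']
  have h1 : (w s * θ) (H s) = H s := by
    have := M_zeta hwθ
    rwa [zeta_one] at this
  rw [map_mul, map_mul, map_inv, h1]
  apply K1_zero hh hAB (M_FS hwθ hf)
  rw [MulAut.mul_apply, expo_w]
  apply Multiplicative.toAdd.injective
  rw [toAdd_expo, ← act_clv, hc]
  simp only [Finsupp.add_apply, Finsupp.sub_apply, Finsupp.smul_apply, ea_odd, eb_odd, smul_eq_mul,
    if_true, mul_one, mul_zero, sub_zero, add_zero, sub_self, toAdd_one]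

end main

end Pool.Agent.Torelli.B1
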