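import Pool.Agent.Torelli.B1.Core

/-!
# Torelli project, part B1: the mirror and `N3`
-/

set_option autoImplicit false

namespace Pool.Agent.Torelli.B1

open Pool.Agent.Torelli

/-- images of the letters under the mirror -/
def mirF (s h : ℕ) (n : ℕ) : F :=
  if n < 2 * s ∨ 2 * (s + h) ≤ n then FreeGroup.of n else FreeGroup.of (4 * s + 2 * h - 1 - n)

theorem mirF_comp (s h n : ℕ) : FreeGroup.lift (mirF s h) (mirF s h n) = FreeGroup.of n := by
  by_cases h1 : n < 2 * s ∨ 2 * (s + h) ≤ n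
  · rw [mirF, if_pos h1, FreeGroup.lift_apply_of, mirF, if_pos h1]
  · rw [mirF, if_neg h1, FreeGroup.lift_apply_of, mirF, if_neg (by omega)]
    congr 1
    omega

/-- the mirror: `a_{s+i} ↦ b_{s+h-1-i}`, `b_{s+i} ↦ a_{s+h-1-i}` -/
def mir (s h : ℕ) : MulAut F := mkAut (mirF s h) (mirF s h) (mirF_comp s h) (mirF_comp s h)

theorem mir_of (s h n : ℕ) : mir s h (FreeGroup.of n) = mirF s h n := mkAut_of _ _ _ _ n

theorem mir_mir (s h : ℕ) (x : F) : mir s h (mir s h x) = x := by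
  have : mir s h * mir s h = 1 := by
    apply aut_ext_of
    intro n
    rw [MulAut.mul_apply, mir_of]
    exact mirF_comp s h n
  exact DFunLike.congr_fun this x

theorem mir_inv (s h : ℕ) : (mir s h)⁻¹ = mir s h := by
  ext x
  exact aut_inv_eq (mir_mir s h x)

theorem mir_a {s h i : ℕ} (hi : i < h) : mir s h (a (s + i)) = b (s + (h - 1 - i)) := by
  rw [a, mir_of, mirF, if_neg (by omega), b]
  congr 1
  omega

theorem mir_b {s h i : ℕ} (hi : i < h) : mir s h (b (s + i)) = a (s + (h - 1 - i)) := by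
  rw [b, mir_of, mirF, if_neg (by omega), a]
  congr 1
  omega

theorem mir_H {s h i : ℕ} (hi : i < h) : mir s h (H (s + i)) = (H (s + (h - 1 - i)))⁻¹ := by
  simp only [H, map_mul, map_inv, mir_a hi, mir_b hi]
  group

theorem mir_zeta_aux (s h : ℕ) : ∀ n ≤ h, mir s h (zeta s n) = (zeta (s + (h - n)) n)⁻¹
  | 0, _ => by simp [zeta_zero]
  | n + 1, hn => by
    rw [zeta_succ, map_mul, mir_zeta_aux s h n (by omega), mir_H (by omega)]
    have e1 : s + (h - n) = s + (h - (n + 1)) + 1 := by omega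
    have e2 : s + (h - 1 - n) = s + (h - (n + 1)) := by omega
    rw [e1, e2, zeta_succ' (s + (h - (n + 1))) n]
    group

theorem mir_zeta (s h : ℕ) : mir s h (zeta s h) = (zeta s h)⁻¹ := by
  have := mir_zeta_aux s h h le_rfl
  rwa [Nat.sub_self, Nat.add_zero] at this

theorem mir_conj_mem {s h : ℕ} {φ : MulAut F} (hφ : φ ∈ M s h) :
    mir s h * φ * (mir s h)⁻¹ ∈ StF s h := by
  rw [mir_inv]
  constructor
  · rw [MulAut.mul_apply, MulAut.mul_apply, mir_zeta, map_inv, M_zeta hφ, map_inv, mir_zeta, inv_inv]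
  · intro n hn
    have h1 : mir s h (FreeGroup.of n) = FreeGroup.of n := by rw [mir_of, mirF, if_pos hn]
    rw [MulAut.mul_apply, MulAut.mul_apply, h1, M_fix_of hφ hn, h1]

theorem mir_FS {s h : ℕ} {x : F} (hx : x ∈ FS s (h - 1)) :
    mir s h x ∈ FS (s + 1) (h - 1) := by
  have : FS s (h - 1) ≤ (FS (s + 1) (h - 1)).comap (mir s h).toMonoidHom := by
    conv_lhs => unfold FS
    rw [Subgroup.closure_le]
    rintro x ⟨n, h1, h2, rfl⟩
    show mir s h (FreeGroup.of n) ∈ FS (s + 1) (h - 1)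
    rw [mir_of, mirF, if_neg (by omega)]
    exact of_mem_FS (by omega) (by omega)
  exact this hx

section main

variable {s h : ℕ} (hh : 2 ≤ h) (hAB : StF s h ≤ M s h)
include hh hAB

theorem mir_Delta {x : F} (hx : x ∈ Delta s h) : mir s h x ∈ Delta s h := by
  have : Delta s h ≤ (Delta s h).comap (mir s h).toMonoidHom := by
    conv_lhs => unfold Delta
    rw [Subgroup.closure_le]
    rintro x ⟨φ, hφ, rfl⟩
    show mir s h (φ (H s)) ∈ Delta s h
    have h1 : mir s h (φ (H s)) = (mir s h * φ * (mir s h)⁻¹) (mir s h (H s)) := by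
      rw [MulAut.mul_apply, MulAut.mul_apply, MulAut.inv_apply_self]
    rw [h1]
    apply Delta_map (hAB (mir_conj_mem hφ))
    have h2 := mir_H (s := s) (h := h) (i := 0) (by omega)
    rw [Nat.add_zero] at h2
    rw [h2]
    exact inv_mem (H_mem_Delta _ (by omega))
  exact this hx

/-- commutators with the last handle -/
theorem N3_last {f : F} (hf : f ∈ FS s (h - 1)) (m : ℤ) :
    f⁻¹ * a (s + (h - 1)) ^ m * f * (a (s + (h - 1)) ^ m)⁻¹ ∈ Delta s h ∧
      f⁻¹ * b (s + (h - 1)) ^ m * f * (b (s + (h - 1)) ^ m)⁻¹ ∈ Delta s h := by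
  have e0 : s + (h - 1 - 0) = s + (h - 1) := by omega
  have ha := mir_a (s := s) (h := h) (i := 0) (by omega)
  have hb := mir_b (s := s) (h := h) (i := 0) (by omega)
  rw [Nat.add_zero, e0] at ha hb
  have h1 := mir_Delta hh hAB (N2_b hh hAB (mir_FS hf) m)
  have h2 := mir_Delta hh hAB (N2_a hh hAB (mir_FS hf) m)
  simp only [map_mul, map_inv, map_zpow, mir_mir, ha, hb] at h1 h2
  exact ⟨h1, h2⟩

/-- commutators of the first handle with the second one -/
theorem N3_aux {f : F} (hf : f ∈ FS s 1) (m : ℤ) : ∀ n : ℕ, n + 2 ≤ h →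
    f⁻¹ * a (s + (h - 1) - n) ^ m * f * (a (s + (h - 1) - n) ^ m)⁻¹ ∈ Delta s h ∧
      f⁻¹ * b (s + (h - 1) - n) ^ m * f * (b (s + (h - 1) - n) ^ m)⁻¹ ∈ Delta s h
  | 0, _ => N3_last hh hAB (FS_mono le_rfl (by omega) hf) m
  | n + 1, hn => by
    obtain ⟨h1, h2⟩ := N3_aux hf m n (by omega)
    have hS : S (s + (h - 1) - (n + 1)) ∈ M s h := S_mem' (by omega) (by omega)
    have hfix : (S (s + (h - 1) - (n + 1)))⁻¹ f = f :=
      aut_inv_fix (S_fix_FS (by omega) hf)
    have e1 : s + (h - 1) - n = s + (h - 1) - (n + 1) + 1 := by omega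
    rw [e1] at h1 h2
    have h3 := Delta_map (inv_mem hS) h1
    have h4 := Delta_map (inv_mem hS) h2
    simp only [map_mul, map_inv, map_zpow, hfix, S_inv_a1, S_inv_b1] at h3 h4
    exact ⟨h3, h4⟩

/-- **N3** -/
theorem N3 {f : F} (hf : f ∈ FS s 1) (m : ℤ) :
    f⁻¹ * a (s + 1) ^ m * f * (a (s + 1) ^ m)⁻¹ ∈ Delta s h ∧
      f⁻¹ * b (s + 1) ^ m * f * (b (s + 1) ^ m)⁻¹ ∈ Delta s h := by
  have := N3_aux hh hAB hf m (h - 2) (by omega)
  have e : s + (h - 1) - (h - 2) = s + 1 := by omega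
  rwa [e] at this

end main

end Pool.Agent.Torelli.B1
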