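import Mathlib

/-!
# Torelli project, part B1: the abstract push lemma
-/

set_option autoImplicit false

namespace Pool.Agent.Torelli.B1

variable {G : Type*} [Group G] {α : Type*}

/-- `g⁻¹ f g f⁻¹ ∈ L` for all `f ∈ F0` -/
def SS (L F0 : Subgroup G) (g : G) : Prop := ∀ f ∈ F0, g⁻¹ * f * g * f⁻¹ ∈ L

/-- the elements `r` which normalise `L` and with `r f r⁻¹ f⁻¹ ∈ L` for `f ∈ F0` -/
def RR (L F0 : Subgroup G) : Subgroup G where
  carrier := {r | (∀ l, l ∈ L ↔ r * l * r⁻¹ ∈ L) ∧ ∀ f ∈ F0, r * f * r⁻¹ * f⁻¹ ∈ L}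
  one_mem' := ⟨fun l => by simp, fun f _ => by simp⟩
  mul_mem' := by
    rintro r r' ⟨h1, h2⟩ ⟨h1', h2'⟩
    refine ⟨fun l => ?_, fun f hf => ?_⟩
    · rw [h1' l, h1 (r' * l * r'⁻¹)]
      have : r * (r' * l * r'⁻¹) * r⁻¹ = r * r' * l * (r * r')⁻¹ := by group
      rw [this]
    · have : r * r' * f * (r * r')⁻¹ * f⁻¹ =
          (r * (r' * f * r'⁻¹ * f⁻¹) * r⁻¹) * (r * f * r⁻¹ * f⁻¹) := by group
      rw [this]
      exact mul_mem ((h1 _).1 (h2' f hf)) (h2 f hf)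
  inv_mem' := by
    rintro r ⟨h1, h2⟩
    have h3 : ∀ l, l ∈ L ↔ r⁻¹ * l * r⁻¹⁻¹ ∈ L := by
      intro l
      rw [h1 (r⁻¹ * l * r⁻¹⁻¹)]
      have : r * (r⁻¹ * l * r⁻¹⁻¹) * r⁻¹ = l := by group
      rw [this]
    refine ⟨h3, fun f hf => ?_⟩
    have : r⁻¹ * f * r⁻¹⁻¹ * f⁻¹ = r⁻¹ * (r * f * r⁻¹ * f⁻¹)⁻¹ * r⁻¹⁻¹ := by group
    rw [this]
    exact (h3 _).1 (inv_mem (h2 f hf))

theorem mem_RR {L F0 : Subgroup G} {r : G} : r ∈ RR L F0 ↔
    (∀ l, l ∈ L ↔ r * l * r⁻¹ ∈ L) ∧ ∀ f ∈ F0, r * f * r⁻¹ * f⁻¹ ∈ L := Iff.rfl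

theorem L_le_RR {L F0 : Subgroup G} (hn : ∀ f ∈ F0, ∀ l ∈ L, f * l * f⁻¹ ∈ L) : L ≤ RR L F0 := by
  intro r hr
  refine ⟨fun l => ?_, fun f hf => ?_⟩
  · constructor
    · intro h
      exact mul_mem (mul_mem hr h) (inv_mem hr)
    · intro h
      have : l = r⁻¹ * (r * l * r⁻¹) * r := by group
      rw [this]
      exact mul_mem (mul_mem (inv_mem hr) h) hr
  · have : r * f * r⁻¹ * f⁻¹ = r * (f * r⁻¹ * f⁻¹) := by group
    rw [this]
    exact mul_mem hr (hn f hf _ (inv_mem hr))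

theorem F0_le_RR {L F0 : Subgroup G} (hn : ∀ f ∈ F0, ∀ l ∈ L, f * l * f⁻¹ ∈ L)
    (hab : ∀ f ∈ F0, ∀ f' ∈ F0, f * f' * f⁻¹ * f'⁻¹ ∈ L) : F0 ≤ RR L F0 := by
  intro r hr
  refine ⟨fun l => ?_, fun f hf => hab r hr f hf⟩
  constructor
  · exact hn r hr l
  · intro h
    have h1 := hn r⁻¹ (inv_mem hr) _ h
    have : r⁻¹ * (r * l * r⁻¹) * r⁻¹⁻¹ = l := by group
    rwa [this] at h1

theorem SS.conj_mem {L F0 : Subgroup G} (hn : ∀ f ∈ F0, ∀ l ∈ L, f * l * f⁻¹ ∈ L)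
    (hab : ∀ f ∈ F0, ∀ f' ∈ F0, f * f' * f⁻¹ * f'⁻¹ ∈ L) {g : G} (hg : SS L F0 g) {f : G}
    (hf : f ∈ F0) : g⁻¹ * f * g ∈ RR L F0 := by
  have : g⁻¹ * f * g = (g⁻¹ * f * g * f⁻¹) * f := by group
  rw [this]
  exact mul_mem (L_le_RR hn (hg f hf)) (F0_le_RR hn hab hf)

/-- the subgroup generated by `F0`, `z⁻¹ F0 z`, `t⁻¹ F0 t` -/
def G3 (F0 : Subgroup G) (z t : G) : Subgroup G :=
  Subgroup.closure {x | ∃ f ∈ F0, x = f ∨ x = z⁻¹ * f * z ∨ x = t⁻¹ * f * t}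

theorem G3_one {F0 : Subgroup G} {z t f : G} (hf : f ∈ F0) : f ∈ G3 F0 z t :=
  Subgroup.subset_closure ⟨f, hf, Or.inl rfl⟩
theorem G3_z {F0 : Subgroup G} {z t f : G} (hf : f ∈ F0) : z⁻¹ * f * z ∈ G3 F0 z t :=
  Subgroup.subset_closure ⟨f, hf, Or.inr (Or.inl rfl)⟩
theorem G3_t {F0 : Subgroup G} {z t f : G} (hf : f ∈ F0) : t⁻¹ * f * t ∈ G3 F0 z t :=
  Subgroup.subset_closure ⟨f, hf, Or.inr (Or.inr rfl)⟩

theorem G3_conj {L F0 : Subgroup G} (hn : ∀ f ∈ F0, ∀ l ∈ L, f * l * f⁻¹ ∈ L)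
    (hab : ∀ f ∈ F0, ∀ f' ∈ F0, f * f' * f⁻¹ * f'⁻¹ ∈ L) {z t g r : G} (hg : SS L F0 g)
    (hz : SS L F0 (z * g)) (ht : SS L F0 (t * g)) (hr : r ∈ G3 F0 z t) :
    g⁻¹ * r * g ∈ RR L F0 := by
  have : G3 F0 z t ≤ (RR L F0).comap (MulAut.conj g⁻¹).toMonoidHom := by
    unfold G3
    rw [Subgroup.closure_le]
    rintro x ⟨f, hf, rfl | rfl | rfl⟩
    · have := hg.conj_mem hn hab hf
      simpa [Subgroup.mem_comap, MulAut.conj_apply] using this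
    · have := hz.conj_mem hn hab hf
      simpa [Subgroup.mem_comap, MulAut.conj_apply, mul_assoc] using this
    · have := ht.conj_mem hn hab hf
      simpa [Subgroup.mem_comap, MulAut.conj_apply, mul_assoc] using this
  have h1 := this hr
  simpa [Subgroup.mem_comap, MulAut.conj_apply] using h1

/-- **The push lemma.** -/
theorem push_lemma (T : α → Prop) (ℓ : α → G) (L F0 : Subgroup G)
    (hn : ∀ f ∈ F0, ∀ l ∈ L, f * l * f⁻¹ ∈ L)
    (hab : ∀ f ∈ F0, ∀ f' ∈ F0, f * f' * f⁻¹ * f'⁻¹ ∈ L)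
    (π : α → G →* G) (hπL : ∀ z, T z → ∀ l ∈ L, π z l ∈ L)
    (hπF : ∀ z, T z → ∀ f ∈ F0, π z f = (ℓ z)⁻¹ * f * ℓ z)
    (hbase : ∀ z, T z → SS L F0 (ℓ z))
    (hπt : ∀ z t, T z → T t → ∃ f0 ∈ F0, ∃ r ∈ G3 F0 (ℓ z) (ℓ t),
      π z (ℓ t) = (ℓ z)⁻¹ * f0 * ℓ z * ℓ t * r) :
    ∀ w : List α, (∀ z ∈ w, T z) → SS L F0 ((w.map ℓ).prod) := by
  suffices H : ∀ m : ℕ, ∀ w : List α, w.length ≤ m → (∀ z ∈ w, T z) → SS L F0 ((w.map ℓ).prod) by
    intro w hw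
    exact H w.length w le_rfl hw
  intro m
  induction m with
  | zero =>
    intro w hw _
    have : w = [] := List.length_eq_zero_iff.1 (by omega)
    subst this
    intro f _
    simp
  | succ m ih =>
    -- the values of `π z` on words of length at most `m`
    have hB : ∀ w : List α, w.length ≤ m → (∀ z ∈ w, T z) → ∀ z, T z → ∃ f0 ∈ F0, ∃ r ∈ RR L F0,
        π z ((w.map ℓ).prod) = (ℓ z)⁻¹ * f0 * ℓ z * (w.map ℓ).prod * r := by
      intro w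
      induction w with
      | nil =>
        intro _ _ z _
        exact ⟨1, one_mem _, 1, one_mem _, by simp⟩
      | cons t w ihw =>
        intro hw hT z hz
        have hw' : w.length + 1 ≤ m := by simpa using hw
        have hTt : T t := hT t (by simp)
        have hTw : ∀ z ∈ w, T z := fun z hz => hT z (by simp [hz])
        obtain ⟨f1, hf1, r', hr', h1⟩ := ihw (by omega) hTw z hz
        obtain ⟨f0, hf0, r, hr, h0⟩ := hπt z t hz hTt
        have hSw : SS L F0 ((w.map ℓ).prod) := ih w (by omega) hTw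
        have hSz : SS L F0 (ℓ z * (w.map ℓ).prod) := by
          have := ih (z :: w) (by simpa using hw') (by
            intro y hy
            rcases List.mem_cons.1 hy with rfl | hy
            · exact hz
            · exact hTw y hy)
          simpa using this
        have hSt : SS L F0 (ℓ t * (w.map ℓ).prod) := by
          have := ih (t :: w) (by simpa using hw') hT
          simpa using this
        refine ⟨f0, hf0, ((w.map ℓ).prod)⁻¹ * r * (w.map ℓ).prod *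
          ((ℓ z * (w.map ℓ).prod)⁻¹ * f1 * (ℓ z * (w.map ℓ).prod)) * r', ?_, ?_⟩
        · exact mul_mem (mul_mem (G3_conj hn hab hSw hSz hSt hr) (hSz.conj_mem hn hab hf1)) hr'
        · rw [List.map_cons, List.prod_cons, map_mul, h0, h1]
          group
    intro w hw hT
    cases w with
    | nil =>
      intro f _
      simp
    | cons z w =>
      have hw' : w.length ≤ m := by
        have : w.length + 1 ≤ m + 1 := by simpa using hw
        omega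
      have hz : T z := hT z (by simp)
      have hTw : ∀ z ∈ w, T z := fun z hz => hT z (by simp [hz])
      obtain ⟨f0, hf0, r, hr, h1⟩ := hB w hw' hTw z hz
      intro f' hf'
      rw [List.map_cons, List.prod_cons]
      set g := (w.map ℓ).prod with hg
      set f := f0 * f' * f0⁻¹ with hf
      have hfm : f ∈ F0 := mul_mem (mul_mem hf0 hf') (inv_mem hf0)
      have h2 := hπL z hz _ (ih w hw' hTw f hfm)
      rw [← hg, map_mul, map_mul, map_mul, map_inv, map_inv, hπF z hz f hfm, h1] at h2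
      set l1 := ((ℓ z)⁻¹ * f0 * ℓ z * g * r)⁻¹ * ((ℓ z)⁻¹ * f * ℓ z) *
        ((ℓ z)⁻¹ * f0 * ℓ z * g * r) * ((ℓ z)⁻¹ * f * ℓ z)⁻¹ with hl1
      have hl2 := hbase z hz f⁻¹ (inv_mem hfm)
      set l2 := (ℓ z)⁻¹ * f⁻¹ * ℓ z * f⁻¹⁻¹ with hl2'
      have hkey : (ℓ z * g)⁻¹ * f' * (ℓ z * g) * f'⁻¹ =
          (r * l1 * r⁻¹) * (r * f * r⁻¹ * f⁻¹) * (f * (r * l2⁻¹ * r⁻¹) * f⁻¹) *
            (f0 * f' * f0⁻¹ * f'⁻¹) := by
        rw [hl1, hl2', hf]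
        group
      rw [hkey]
      exact mul_mem (mul_mem (mul_mem ((hr.1 _).1 h2) (hr.2 f hfm))
        (hn f hfm _ ((hr.1 _).1 (inv_mem hl2)))) (hab f0 hf0 f' hf')

end Pool.Agent.Torelli.B1
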