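import Pool.Agent.Torelli.Inter
import Pool.Agent.Torelli.Words
import Pool.Agent.Torelli.B1.PL

/-!
# Torelli project, part B1: pushes along the letters
-/

set_option autoImplicit false

namespace Pool.Agent.Torelli.B1

open Pool.Agent.Torelli

/-! ### Values of `S` -/

theorem S_a_out {i j : ℕ} (h : j < i ∨ i + 2 ≤ j) : S i (a j) = a j := S_out i _ (by omega)
theorem S_b_out {i j : ℕ} (h : j < i ∨ i + 2 ≤ j) : S i (b j) = b j := S_out i _ (by omega)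

theorem S_H (i : ℕ) : S i (H i) = H (i + 1) := by
  simp only [H, map_mul, map_inv, S_a0, S_b0]

theorem S_inv_a1 (i : ℕ) : (S i)⁻¹ (a (i + 1)) = a i := aut_inv_eq (S_a0 i)
theorem S_inv_b1 (i : ℕ) : (S i)⁻¹ (b (i + 1)) = b i := aut_inv_eq (S_b0 i)
theorem S_inv_a0 (i : ℕ) : (S i)⁻¹ (a i) = H i * a (i + 1) * (H i)⁻¹ := by
  apply aut_inv_eq
  rw [map_mul, map_mul, map_inv, S_H, S_a1]
  group
theorem S_inv_b0 (i : ℕ) : (S i)⁻¹ (b i) = H i * b (i + 1) * (H i)⁻¹ := by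
  apply aut_inv_eq
  rw [map_mul, map_mul, map_inv, S_H, S_b1]
  group
theorem S_inv_a_out {i j : ℕ} (h : j < i ∨ i + 2 ≤ j) : (S i)⁻¹ (a j) = a j :=
  aut_inv_fix (S_a_out h)
theorem S_inv_b_out {i j : ℕ} (h : j < i ∨ i + 2 ≤ j) : (S i)⁻¹ (b j) = b j :=
  aut_inv_fix (S_b_out h)

theorem S_fix_FS {i s : ℕ} (h : s + 1 ≤ i) {x : F} (hx : x ∈ FS s 1) : S i x = x :=
  M_fix_FS (S_mem i 2 le_rfl) (by omega) hx

theorem w_a_out {i j : ℕ} (h : j ≠ i) : w i (a j) = a j := w_out i _ (by omega)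
theorem w_b_out {i j : ℕ} (h : j ≠ i) : w i (b j) = b j := w_out i _ (by omega)
theorem w_inv_a_out {i j : ℕ} (h : j ≠ i) : (w i)⁻¹ (a j) = a j := aut_inv_fix (w_a_out h)
theorem w_inv_b_out {i j : ℕ} (h : j ≠ i) : (w i)⁻¹ (b j) = b j := aut_inv_fix (w_b_out h)
theorem w_fix_FS {i s : ℕ} (h : s + 1 ≤ i) {x : F} (hx : x ∈ FS s 1) : w i x = x :=
  M_fix_FS (w_mem i 1 le_rfl) (by omega) hx

/-- `c_z = z⁻¹ β⁻¹ z β` -/
def cz (β z : F) : F := z⁻¹ * β⁻¹ * z * β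

/-- The values of a push along `z` (a letter of the handle `j > s`, with partner `v`), with respect to the
element `β`. -/
structure ZP (s j : ℕ) (β z v : F) (R : MulAut F) : Prop where
  la : ∀ i, s < i → i < j → R (a i) = cz β z * a i * (cz β z)⁻¹
  lb : ∀ i, s < i → i < j → R (b i) = cz β z * b i * (cz β z)⁻¹
  hz : R z = z⁻¹ * β⁻¹ * z * β * z
  hv : R v = v * z⁻¹ * β * z
  ha : ∀ i, j < i → R (a i) = a i
  hb : ∀ i, j < i → R (b i) = b i
  hβ : R β = z⁻¹ * β * z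

theorem ZP.comm {s j : ℕ} {β z v : F} {R : MulAut F} (h : ZP s j β z v R) :
    R (z * v * z⁻¹ * v⁻¹) = cz β z * (z * v * z⁻¹ * v⁻¹) := by
  simp only [map_mul, map_inv, h.hz, h.hv, cz]
  group

/-- passage to the next handle -/
theorem ZP.step {s j : ℕ} {β : F} {R : MulAut F} (h : ZP s j β (a j) (b j) R) (hj : s < j)
    (hβ : β ∈ FS s 1) : ZP s (j + 1) β (a (j + 1)) (b (j + 1)) (S j * R * (S j)⁻¹) := by
  have hS : S j β = β := S_fix_FS hj hβ
  have hSi : (S j)⁻¹ β = β := aut_inv_fix hS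
  have hc : S j (cz β (a j)) = cz β (a (j + 1)) := by
    simp only [cz, map_mul, map_inv, S_a0, hS]
  have hH : R (H j) = cz β (a j) * H j := h.comm
  constructor
  · intro i h1 h2
    rw [MulAut.mul_apply, MulAut.mul_apply]
    rcases Nat.lt_or_ge i j with h3 | h3
    · rw [S_inv_a_out (Or.inl h3), h.la i h1 h3, map_mul, map_mul, map_inv, hc, S_a_out (Or.inl h3)]
    · obtain rfl : i = j := by omega
      rw [S_inv_a0]
      simp only [map_mul, map_inv, hH, h.ha _ (show i < i + 1 by omega), hc, S_H, S_a1]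
      group
  · intro i h1 h2
    rw [MulAut.mul_apply, MulAut.mul_apply]
    rcases Nat.lt_or_ge i j with h3 | h3
    · rw [S_inv_b_out (Or.inl h3), h.lb i h1 h3, map_mul, map_mul, map_inv, hc, S_b_out (Or.inl h3)]
    · obtain rfl : i = j := by omega
      rw [S_inv_b0]
      simp only [map_mul, map_inv, hH, h.hb _ (show i < i + 1 by omega), hc, S_H, S_b1]
      group
  · rw [MulAut.mul_apply, MulAut.mul_apply, S_inv_a1, h.hz]
    simp only [map_mul, map_inv, S_a0, hS]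
  · rw [MulAut.mul_apply, MulAut.mul_apply, S_inv_b1, h.hv]
    simp only [map_mul, map_inv, S_a0, S_b0, hS]
  · intro i hi
    rw [MulAut.mul_apply, MulAut.mul_apply, S_inv_a_out (by omega), h.ha i (by omega),
      S_a_out (by omega)]
  · intro i hi
    rw [MulAut.mul_apply, MulAut.mul_apply, S_inv_b_out (by omega), h.hb i (by omega),
      S_b_out (by omega)]
  · rw [MulAut.mul_apply, MulAut.mul_apply, hSi, h.hβ]
    simp only [map_mul, map_inv, S_a0, hS]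

/-- rotation by `w j` -/
theorem ZP.rot {s j : ℕ} {β : F} {R : MulAut F} (h : ZP s j β (a j) (b j) R) (hj : s < j)
    (hβ : β ∈ FS s 1) :
    ZP s j β (b j)⁻¹ (b j * a j) (w j * R * (w j)⁻¹) := by
  have hw : w j β = β := w_fix_FS hj hβ
  have hwi : (w j)⁻¹ β = β := aut_inv_fix hw
  have hz' : (w j)⁻¹ (b j)⁻¹ = a j := aut_inv_eq (w_a0 j)
  have hv' : (w j)⁻¹ (b j * a j) = b j := aut_inv_eq (w_b0 j)
  constructor
  · intro i h1 h2
    rw [MulAut.mul_apply, MulAut.mul_apply, w_inv_a_out (by omega), h.la i h1 h2]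
    simp only [cz, map_mul, map_inv, w_a0, hw, w_a_out (show i ≠ j by omega)]
  · intro i h1 h2
    rw [MulAut.mul_apply, MulAut.mul_apply, w_inv_b_out (by omega), h.lb i h1 h2]
    simp only [cz, map_mul, map_inv, w_a0, hw, w_b_out (show i ≠ j by omega)]
  · rw [MulAut.mul_apply, MulAut.mul_apply, hz', h.hz]
    simp only [map_mul, map_inv, w_a0, hw]
  · rw [MulAut.mul_apply, MulAut.mul_apply, hv', h.hv]
    simp only [map_mul, map_inv, w_a0, w_b0, hw]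
  · intro i hi
    rw [MulAut.mul_apply, MulAut.mul_apply, w_inv_a_out (by omega), h.ha i hi,
      w_a_out (by omega)]
  · intro i hi
    rw [MulAut.mul_apply, MulAut.mul_apply, w_inv_b_out (by omega), h.hb i hi,
      w_b_out (by omega)]
  · rw [MulAut.mul_apply, MulAut.mul_apply, hwi, h.hβ]
    simp only [map_mul, map_inv, w_a0, hw]

/-! ### The forms needed for the push lemma -/

/-- `X = (z⁻¹ f0 z) t r` with `f0 ∈ F0`, `r ∈ G3` -/
def Fm (F0 : Subgroup F) (z t X : F) : Prop :=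
  ∃ f0 ∈ F0, ∃ r ∈ G3 F0 z t, X = z⁻¹ * f0 * z * t * r

section forms

variable {F0 : Subgroup F} {β : F} (hβ : β ∈ F0)
include hβ

theorem Fm_c (z t : F) : Fm F0 z t (cz β z * t * (cz β z)⁻¹) := by
  refine ⟨β⁻¹, inv_mem hβ, (t⁻¹ * β * t) * β⁻¹ * (z⁻¹ * β * z), ?_, ?_⟩
  · exact mul_mem (mul_mem (G3_t hβ) (inv_mem (G3_one hβ))) (G3_z hβ)
  · unfold cz; group

omit hβ in
theorem Fm_id (z t : F) : Fm F0 z t t := ⟨1, one_mem _, 1, one_mem _, by group⟩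

theorem Fm_conj (z t : F) : Fm F0 z t (z⁻¹ * β⁻¹ * z * t * (z⁻¹ * β * z)) :=
  ⟨β⁻¹, inv_mem hβ, z⁻¹ * β * z, G3_z hβ, rfl⟩

theorem Fm_conj' (z t : F) : Fm F0 z t (β⁻¹ * t * β) :=
  ⟨1, one_mem _, (t⁻¹ * β⁻¹ * t) * β, mul_mem (G3_t (inv_mem hβ)) (G3_one hβ), by group⟩

end forms

/-- the automorphism `conj(β⁻¹) ∘ R⁻¹` -/
def Rc (β : F) (R : MulAut F) : MulAut F := MulAut.conj β⁻¹ * R⁻¹

theorem Rc_apply (β : F) (R : MulAut F) (x : F) : Rc β R x = β⁻¹ * R⁻¹ x * β := by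
  simp [Rc, MulAut.mul_apply]

section inverse

variable {s j : ℕ} {β z v : F} {R : MulAut F} (h : ZP s j β z v R)
include h

theorem ZP.inv_z : R⁻¹ z = β * z * β⁻¹ := by
  apply aut_inv_eq
  simp only [map_mul, map_inv, h.hz, h.hβ]
  group

theorem ZP.inv_β : R⁻¹ β = β * z * β * z⁻¹ * β⁻¹ := by
  apply aut_inv_eq
  simp only [map_mul, map_inv, h.hz, h.hβ]
  group

theorem ZP.inv_v : R⁻¹ v = v * β⁻¹ := by
  apply aut_inv_eq
  simp only [map_mul, map_inv, h.hv, h.hβ]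
  group

theorem ZP.inv_la {i : ℕ} (h1 : s < i) (h2 : i < j) :
    R⁻¹ (a i) = β * z * β⁻¹ * z⁻¹ * a i * (z * β * z⁻¹ * β⁻¹) := by
  apply aut_inv_eq
  simp only [map_mul, map_inv, h.hz, h.hβ, h.la i h1 h2, cz]
  group

theorem ZP.inv_lb {i : ℕ} (h1 : s < i) (h2 : i < j) :
    R⁻¹ (b i) = β * z * β⁻¹ * z⁻¹ * b i * (z * β * z⁻¹ * β⁻¹) := by
  apply aut_inv_eq
  simp only [map_mul, map_inv, h.hz, h.hβ, h.lb i h1 h2, cz]
  group

theorem ZP.Rc_z : Rc β R z = z := by rw [Rc_apply, h.inv_z]; group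
theorem ZP.Rc_β : Rc β R β = z * β * z⁻¹ := by rw [Rc_apply, h.inv_β]; group
theorem ZP.Rc_v : Rc β R v = β⁻¹ * v := by rw [Rc_apply, h.inv_v]; group
theorem ZP.Rc_la {i : ℕ} (h1 : s < i) (h2 : i < j) :
    Rc β R (a i) = z * β⁻¹ * z⁻¹ * a i * (z * β * z⁻¹) := by
  rw [Rc_apply, h.inv_la h1 h2]; group
theorem ZP.Rc_lb {i : ℕ} (h1 : s < i) (h2 : i < j) :
    Rc β R (b i) = z * β⁻¹ * z⁻¹ * b i * (z * β * z⁻¹) := by
  rw [Rc_apply, h.inv_lb h1 h2]; group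
theorem ZP.Rc_ha {i : ℕ} (h1 : j < i) : Rc β R (a i) = β⁻¹ * a i * β := by
  rw [Rc_apply, aut_inv_fix (h.ha i h1)]
theorem ZP.Rc_hb {i : ℕ} (h1 : j < i) : Rc β R (b i) = β⁻¹ * b i * β := by
  rw [Rc_apply, aut_inv_fix (h.hb i h1)]

end inverse

/-- the four letters of a handle -/
def Lt (i : ℕ) (t : F) : Prop := t = a i ∨ t = b i ∨ t = (a i)⁻¹ ∨ t = (b i)⁻¹

section main

variable {s j : ℕ} {β : F} {R : MulAut F} {F0 : Subgroup F} (hβ : β ∈ F0)
include hβ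

/-- Forms for the push along `a j`. -/
theorem Fm_A1 (h : ZP s j β (a j) (b j) R) {i : ℕ} (hi : s < i) {t : F} (ht : Lt i t) :
    Fm F0 (a j) t (R t) := by
  rcases lt_trichotomy i j with h1 | h1 | h1
  · rcases ht with rfl | rfl | rfl | rfl
    · rw [h.la i hi h1]; exact Fm_c hβ _ _
    · rw [h.lb i hi h1]; exact Fm_c hβ _ _
    · have : R (a i)⁻¹ = cz β (a j) * (a i)⁻¹ * (cz β (a j))⁻¹ := by
        rw [map_inv, h.la i hi h1]; group
      rw [this]; exact Fm_c hβ _ _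
    · have : R (b i)⁻¹ = cz β (a j) * (b i)⁻¹ * (cz β (a j))⁻¹ := by
        rw [map_inv, h.lb i hi h1]; group
      rw [this]; exact Fm_c hβ _ _
  · subst h1
    rcases ht with rfl | rfl | rfl | rfl
    · exact ⟨β⁻¹, inv_mem hβ, (a i)⁻¹ * β * a i, G3_t hβ, by rw [h.hz]; group⟩
    · exact ⟨1, one_mem _, (a i)⁻¹ * β * a i, G3_z hβ, by rw [h.hv]; group⟩
    · exact ⟨β⁻¹, inv_mem hβ, (a i)⁻¹ * β * a i, G3_z hβ, by rw [map_inv, h.hz]; group⟩
    · exact ⟨β⁻¹, inv_mem hβ, 1, one_mem _, by rw [map_inv, h.hv]; group⟩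
  · rcases ht with rfl | rfl | rfl | rfl
    · rw [h.ha i h1]; exact Fm_id _ _
    · rw [h.hb i h1]; exact Fm_id _ _
    · rw [map_inv, h.ha i h1]; exact Fm_id _ _
    · rw [map_inv, h.hb i h1]; exact Fm_id _ _

/-- Forms for the push along `(a j)⁻¹`. -/
theorem Fm_A2 (h : ZP s j β (a j) (b j) R) {i : ℕ} (hi : s < i) {t : F} (ht : Lt i t) :
    Fm F0 (a j)⁻¹ t (Rc β R t) := by
  rcases lt_trichotomy i j with h1 | h1 | h1
  · have e : ∀ t : F, (a j)⁻¹⁻¹ * β⁻¹ * (a j)⁻¹ * t * ((a j)⁻¹⁻¹ * β * (a j)⁻¹) =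
        a j * β⁻¹ * (a j)⁻¹ * t * (a j * β * (a j)⁻¹) := fun t => by group
    rcases ht with rfl | rfl | rfl | rfl
    · rw [h.Rc_la hi h1, ← e]; exact Fm_conj hβ _ _
    · rw [h.Rc_lb hi h1, ← e]; exact Fm_conj hβ _ _
    · have : Rc β R (a i)⁻¹ = a j * β⁻¹ * (a j)⁻¹ * (a i)⁻¹ * (a j * β * (a j)⁻¹) := by
        rw [map_inv, h.Rc_la hi h1]; group
      rw [this, ← e]; exact Fm_conj hβ _ _
    · have : Rc β R (b i)⁻¹ = a j * β⁻¹ * (a j)⁻¹ * (b i)⁻¹ * (a j * β * (a j)⁻¹) := by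
        rw [map_inv, h.Rc_lb hi h1]; group
      rw [this, ← e]; exact Fm_conj hβ _ _
  · subst h1
    rcases ht with rfl | rfl | rfl | rfl
    · rw [h.Rc_z]; exact Fm_id _ _
    · exact ⟨1, one_mem _, (b i)⁻¹ * β⁻¹ * b i, G3_t (inv_mem hβ), by rw [h.Rc_v]; group⟩
    · rw [map_inv, h.Rc_z]; exact Fm_id _ _
    · exact ⟨1, one_mem _, β, G3_one hβ, by rw [map_inv, h.Rc_v]; group⟩
  · rcases ht with rfl | rfl | rfl | rfl
    · rw [h.Rc_ha h1]; exact Fm_conj' hβ _ _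
    · rw [h.Rc_hb h1]; exact Fm_conj' hβ _ _
    · have : Rc β R (a i)⁻¹ = β⁻¹ * (a i)⁻¹ * β := by rw [map_inv, h.Rc_ha h1]; group
      rw [this]; exact Fm_conj' hβ _ _
    · have : Rc β R (b i)⁻¹ = β⁻¹ * (b i)⁻¹ * β := by rw [map_inv, h.Rc_hb h1]; group
      rw [this]; exact Fm_conj' hβ _ _

/-- Forms for the push along `(b j)⁻¹`. -/
theorem Fm_B1 (h : ZP s j β (b j)⁻¹ (b j * a j) R) {i : ℕ} (hi : s < i) {t : F} (ht : Lt i t) :
    Fm F0 (b j)⁻¹ t (R t) := by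
  rcases lt_trichotomy i j with h1 | h1 | h1
  · rcases ht with rfl | rfl | rfl | rfl
    · rw [h.la i hi h1]; exact Fm_c hβ _ _
    · rw [h.lb i hi h1]; exact Fm_c hβ _ _
    · have : R (a i)⁻¹ = cz β (b j)⁻¹ * (a i)⁻¹ * (cz β (b j)⁻¹)⁻¹ := by
        rw [map_inv, h.la i hi h1]; group
      rw [this]; exact Fm_c hβ _ _
    · have : R (b i)⁻¹ = cz β (b j)⁻¹ * (b i)⁻¹ * (cz β (b j)⁻¹)⁻¹ := by
        rw [map_inv, h.lb i hi h1]; group
      rw [this]; exact Fm_c hβ _ _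
  · subst h1
    have hb : R (b i) = b i * β⁻¹ * b i * β * (b i)⁻¹ := by
      have h2 : (R (b i)⁻¹)⁻¹ = _ := congrArg (fun x => x⁻¹) h.hz
      rw [← map_inv, inv_inv] at h2
      rw [h2]; group
    have ha : R (a i) = b i * β⁻¹ * (b i)⁻¹ * β * a i * (b i * β * (b i)⁻¹) := by
      have h2 : a i = (b i)⁻¹ * (b i * a i) := by group
      conv_lhs => rw [h2, map_mul, h.hz, h.hv]
      group
    rcases ht with rfl | rfl | rfl | rfl
    · exact ⟨β⁻¹, inv_mem hβ, ((a i)⁻¹ * β * a i) * ((b i)⁻¹⁻¹ * β * (b i)⁻¹),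
        mul_mem (G3_t hβ) (G3_z hβ), by rw [ha]; group⟩
    · exact ⟨β⁻¹, inv_mem hβ, (b i)⁻¹⁻¹ * β * (b i)⁻¹, G3_z hβ, by rw [hb]; group⟩
    · exact ⟨β⁻¹, inv_mem hβ, β⁻¹ * ((b i)⁻¹⁻¹ * β * (b i)⁻¹),
        mul_mem (inv_mem (G3_one hβ)) (G3_z hβ), by rw [map_inv, ha]; group⟩
    · exact ⟨β⁻¹, inv_mem hβ, (b i)⁻¹⁻¹ * β * (b i)⁻¹, G3_t hβ, by rw [map_inv, hb]; group⟩
  · rcases ht with rfl | rfl | rfl | rfl
    · rw [h.ha i h1]; exact Fm_id _ _
    · rw [h.hb i h1]; exact Fm_id _ _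
    · rw [map_inv, h.ha i h1]; exact Fm_id _ _
    · rw [map_inv, h.hb i h1]; exact Fm_id _ _

/-- Forms for the push along `b j`. -/
theorem Fm_B2 (h : ZP s j β (b j)⁻¹ (b j * a j) R) {i : ℕ} (hi : s < i) {t : F} (ht : Lt i t) :
    Fm F0 (b j) t (Rc β R t) := by
  rcases lt_trichotomy i j with h1 | h1 | h1
  · have e : ∀ t : F, (b j)⁻¹ * β⁻¹ * b j * t * ((b j)⁻¹ * β * b j) =
        (b j)⁻¹ * β⁻¹ * (b j)⁻¹⁻¹ * t * ((b j)⁻¹ * β * (b j)⁻¹⁻¹) := fun t => by group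
    rcases ht with rfl | rfl | rfl | rfl
    · rw [h.Rc_la hi h1, ← e]; exact Fm_conj hβ _ _
    · rw [h.Rc_lb hi h1, ← e]; exact Fm_conj hβ _ _
    · have : Rc β R (a i)⁻¹ =
          (b j)⁻¹ * β⁻¹ * (b j)⁻¹⁻¹ * (a i)⁻¹ * ((b j)⁻¹ * β * (b j)⁻¹⁻¹) := by
        rw [map_inv, h.Rc_la hi h1]; group
      rw [this, ← e]; exact Fm_conj hβ _ _
    · have : Rc β R (b i)⁻¹ =
          (b j)⁻¹ * β⁻¹ * (b j)⁻¹⁻¹ * (b i)⁻¹ * ((b j)⁻¹ * β * (b j)⁻¹⁻¹) := by
        rw [map_inv, h.Rc_lb hi h1]; group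
      rw [this, ← e]; exact Fm_conj hβ _ _
  · subst h1
    have hb : Rc β R (b i) = b i := by
      have h2 : (Rc β R (b i)⁻¹)⁻¹ = (b i)⁻¹⁻¹ := congrArg (fun x => x⁻¹) h.Rc_z
      rwa [← map_inv, inv_inv] at h2
    have ha : Rc β R (a i) = (b i)⁻¹ * β⁻¹ * b i * a i := by
      have h2 : a i = (b i)⁻¹ * (b i * a i) := by group
      conv_lhs => rw [h2, map_mul, h.Rc_z, h.Rc_v]
      group
    rcases ht with rfl | rfl | rfl | rfl
    · exact ⟨β⁻¹, inv_mem hβ, 1, one_mem _, by rw [ha]; group⟩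
    · rw [hb]; exact Fm_id _ _
    · exact ⟨1, one_mem _, (b i)⁻¹ * β * b i, G3_z hβ, by rw [map_inv, ha]; group⟩
    · rw [map_inv, hb]; exact Fm_id _ _
  · rcases ht with rfl | rfl | rfl | rfl
    · rw [h.Rc_ha h1]; exact Fm_conj' hβ _ _
    · rw [h.Rc_hb h1]; exact Fm_conj' hβ _ _
    · have : Rc β R (a i)⁻¹ = β⁻¹ * (a i)⁻¹ * β := by rw [map_inv, h.Rc_ha h1]; group
      rw [this]; exact Fm_conj' hβ _ _
    · have : Rc β R (b i)⁻¹ = β⁻¹ * (b i)⁻¹ * β := by rw [map_inv, h.Rc_hb h1]; group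
      rw [this]; exact Fm_conj' hβ _ _

end main

/-! ### The pushes `Qa` and `Da` -/

theorem ZP_P (s : ℕ) : ZP s (s + 1) (d s) (a (s + 1)) (b (s + 1)) (P s) where
  la := fun i h1 h2 => absurd h2 (by omega)
  lb := fun i h1 h2 => absurd h2 (by omega)
  hz := P_x s
  hv := P_y s
  ha := fun i hi => P_a_ne (by omega)
  hb := fun i hi => P_b_ne (by omega) (by omega)
  hβ := by
    simp only [d, map_mul, map_inv, P_a, P_b]
    group

theorem ZP_DX (s : ℕ) : ZP s (s + 1) (H s) (a (s + 1)) (b (s + 1)) (DX s) where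
  la := fun i h1 h2 => absurd h2 (by omega)
  lb := fun i h1 h2 => absurd h2 (by omega)
  hz := DX_a1 s
  hv := DX_b1 s
  ha := fun i hi => DX_out s _ (by omega)
  hb := fun i hi => DX_out s _ (by omega)
  hβ := by
    simp only [H, map_mul, map_inv, DX_a0, DX_b0]
    group

theorem ZP_Qa (s k : ℕ) : ZP s (s + 1 + k) (d s) (a (s + 1 + k)) (b (s + 1 + k)) (Qa s k) := by
  induction k with
  | zero => exact ZP_P s
  | succ k ih => exact ih.step (by omega) (d_mem_FS le_rfl (by omega))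

theorem ZP_Da (s k : ℕ) : ZP s (s + 1 + k) (H s) (a (s + 1 + k)) (b (s + 1 + k)) (Da s k) := by
  induction k with
  | zero => exact ZP_DX s
  | succ k ih => exact ih.step (by omega) (H_mem_FS le_rfl (by omega))

theorem Qa_mem {s k h : ℕ} (hk : k + 1 < h) : Qa s k ∈ M s h := by
  induction k with
  | zero => exact P_mem_M le_rfl (by omega)
  | succ k ih =>
    have hS : S (s + 1 + k) ∈ M s h :=
      M_mono (by omega) (by omega) (S_mem (s + 1 + k) 2 le_rfl)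
    exact mul_mem (mul_mem hS (ih (by omega))) (inv_mem hS)

theorem Da_mem {s k h : ℕ} (hk : k + 1 < h) : Da s k ∈ M s h := by
  induction k with
  | zero => exact M_mono le_rfl (by omega) (DX_mem s 2 le_rfl)
  | succ k ih =>
    have hS : S (s + 1 + k) ∈ M s h :=
      M_mono (by omega) (by omega) (S_mem (s + 1 + k) 2 le_rfl)
    exact mul_mem (mul_mem hS (ih (by omega))) (inv_mem hS)

/-- `Qa s k` fixes `a s` -/
theorem Qa_a (s k : ℕ) : Qa s k (a s) = a s := by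
  induction k with
  | zero => exact P_a s
  | succ k ih =>
    show (S (s + 1 + k) * Qa s k * (S (s + 1 + k))⁻¹) (a s) = a s
    rw [MulAut.mul_apply, MulAut.mul_apply, S_inv_a_out (by omega), ih, S_a_out (by omega)]

/-- `Da s k` acts on the first handle by conjugation -/
theorem Da_F1 (s k : ℕ) : Da s k (a s) = (a (s + 1 + k))⁻¹ * a s * a (s + 1 + k) ∧
    Da s k (b s) = (a (s + 1 + k))⁻¹ * b s * a (s + 1 + k) := by
  induction k with
  | zero => exact ⟨DX_a0 s, DX_b0 s⟩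
  | succ k ih =>
    constructor
    · show (S (s + 1 + k) * Da s k * (S (s + 1 + k))⁻¹) (a s) = _
      rw [MulAut.mul_apply, MulAut.mul_apply, S_inv_a_out (by omega), ih.1]
      simp only [map_mul, map_inv, S_a0, S_a_out (show s < s + 1 + k ∨ _ by omega)]
      rfl
    · show (S (s + 1 + k) * Da s k * (S (s + 1 + k))⁻¹) (b s) = _
      rw [MulAut.mul_apply, MulAut.mul_apply, S_inv_b_out (by omega), ih.2]
      simp only [map_mul, map_inv, S_a0, S_b_out (show s < s + 1 + k ∨ _ by omega)]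
      rfl

end Pool.Agent.Torelli.B1
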